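import Mathlib

/-!
# Counting by degrees

Project UM (helper467).
-/

set_option autoImplicit false
set_option linter.all false

namespace Pool.Agent.H467.UM.Cnt

open Polynomial Filter IsDedekindDomain
open scoped Classical

theorem irr {k : Type} [Field k] (K : Type) [Field K] [Algebra k[X] K] [IsFractionRing k[X] K]
    {a b : k[X]} (h : ∀ c : k[X], c ^ 3 + a * c + b ≠ 0) :
    Irreducible (X ^ 3 + C (algebraMap k[X] K a) * X + C (algebraMap k[X] K b) : K[X]) := by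
  have hm : (X ^ 3 + C (algebraMap k[X] K a) * X + C (algebraMap k[X] K b) : K[X]).Monic := by
    monicity!
  have hdeg : (X ^ 3 + C (algebraMap k[X] K a) * X + C (algebraMap k[X] K b) : K[X]).natDegree
      = 3 := by compute_degree!
  rw [hm.irreducible_iff_roots_eq_zero_of_degree_le_three (by rw [hdeg]; norm_num)
    (by rw [hdeg]), Multiset.eq_zero_iff_forall_notMem]
  intro x hx
  rw [mem_roots hm.ne_zero] at hx
  simp only [IsRoot.def, eval_add, eval_mul, eval_pow, eval_X, eval_C] at hx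
  have hint : IsIntegral k[X] x := by
    refine ⟨X ^ 3 + C a * X + C b, by monicity!, ?_⟩
    simpa using hx
  obtain ⟨c, rfl⟩ := IsIntegrallyClosed.isIntegral_iff.1 hint
  apply h c
  apply IsFractionRing.injective k[X] K
  rw [map_zero, ← hx, map_add, map_add, map_pow, map_mul]

theorem fin_deg {k : Type} [Field k] [Finite k] (d : ℕ) :
    {D : k[X] | D.natDegree ≤ d}.Finite := by
  refine Set.Finite.of_injOn (f := fun D : k[X] => fun i : Fin (d + 1) => D.coeff i)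
    (t := Set.univ) (fun _ _ => Set.mem_univ _) ?_ Set.finite_univ
  intro D hD D' hD' hDD
  ext i
  by_cases hi : i ≤ d
  · exact congrFun hDD ⟨i, Nat.lt_succ_of_le hi⟩
  · have h1 : D.natDegree < i := lt_of_le_of_lt hD (not_le.1 hi)
    have h2 : D'.natDegree < i := lt_of_le_of_lt hD' (not_le.1 hi)
    rw [coeff_eq_zero_of_natDegree_lt h1, coeff_eq_zero_of_natDegree_lt h2]

/-- A sum over the polynomials of degree at most `n` as a sum over the degrees. -/
theorem sum_deg {k : Type} [Field k] [Finite k] (S : Set k[X]) (n : ℕ) (w : ℕ → ℝ) :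
    ∑ᶠ D ∈ {D : k[X] | D ∈ S ∧ D.natDegree ≤ n}, w D.natDegree =
      ∑ d ∈ Finset.range (n + 1), (({D : k[X] | D ∈ S ∧ D.natDegree = d}).ncard : ℝ) * w d := by
  have hf : {D : k[X] | D ∈ S ∧ D.natDegree ≤ n}.Finite := (fin_deg n).subset fun D hD => hD.2
  rw [finsum_mem_eq_finite_toFinset_sum _ hf]
  rw [← Finset.sum_fiberwise_of_maps_to (s := hf.toFinset) (t := Finset.range (n + 1))
    (g := fun D : k[X] => D.natDegree) (fun D hD => by
      rw [Finset.mem_range]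
      exact Nat.lt_succ_of_le (hf.mem_toFinset.1 hD).2)]
  refine Finset.sum_congr rfl fun d hd => ?_
  rw [Finset.mem_range] at hd
  have h1 : ∀ D ∈ hf.toFinset.filter (fun D : k[X] => D.natDegree = d), w D.natDegree = w d :=
    fun D hD => by rw [(Finset.mem_filter.1 hD).2]
  rw [Finset.sum_congr rfl h1, Finset.sum_const, nsmul_eq_mul]
  congr 2
  rw [← Set.ncard_coe_finset]
  congr 1
  ext D
  simp only [Finset.coe_filter, Set.Finite.mem_toFinset, Set.mem_setOf_eq]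
  constructor
  · rintro ⟨⟨h1, -⟩, h2⟩
    exact ⟨h1, h2⟩
  · rintro ⟨h1, h2⟩
    exact ⟨⟨h1, by omega⟩, h2⟩

/-- Sums of powers. -/
theorem sum_pow {δ : ℝ} (h0 : 0 < δ) (h1 : δ ≤ 1) (n : ℕ) :
    ∑ d ∈ Finset.range (n + 1), (d : ℝ) ^ (δ - 1) ≤ 1 + (n : ℝ) ^ δ / δ := by
  induction n with
  | zero =>
    rw [Finset.sum_range_one, Nat.cast_zero, Real.zero_rpow h0.ne', zero_div, add_zero]
    rcases eq_or_lt_of_le h1 with h | h
    · rw [h, sub_self, Real.rpow_zero]
    · rw [Real.zero_rpow (by linarith)]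
      norm_num
  | succ n ih =>
    rw [Finset.sum_range_succ]
    have hx : (0 : ℝ) < ((n + 1 : ℕ) : ℝ) := by positivity
    have key : δ * ((n + 1 : ℕ) : ℝ) ^ (δ - 1) ≤ ((n + 1 : ℕ) : ℝ) ^ δ - (n : ℝ) ^ δ := by
      have hb := rpow_one_add_le_one_add_mul_self (s := -(1 / ((n + 1 : ℕ) : ℝ))) (p := δ)
        (by
          have : 1 / ((n + 1 : ℕ) : ℝ) ≤ 1 := by
            rw [div_le_one hx]
            push_cast
            have : (0 : ℝ) ≤ n := Nat.cast_nonneg n
            linarith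
          linarith) h0.le h1
      have e1 : (n : ℝ) = ((n + 1 : ℕ) : ℝ) * (1 + -(1 / ((n + 1 : ℕ) : ℝ))) := by
        field_simp
        push_cast
        ring
      have hn0 : (0 : ℝ) ≤ 1 + -(1 / ((n + 1 : ℕ) : ℝ)) := by
        by_contra hneg
        have h3 : (n : ℝ) < 0 := by
          rw [e1]
          exact mul_neg_of_pos_of_neg hx (not_le.1 hneg)
        exact absurd (Nat.cast_nonneg (α := ℝ) n) (not_le.2 h3)
      have e2 : (n : ℝ) ^ δ = ((n + 1 : ℕ) : ℝ) ^ δ * (1 + -(1 / ((n + 1 : ℕ) : ℝ))) ^ δ := by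
        conv_lhs => rw [e1]
        rw [Real.mul_rpow hx.le hn0]
      have hp : (0 : ℝ) < ((n + 1 : ℕ) : ℝ) ^ δ := Real.rpow_pos_of_pos hx δ
      have e3 : ((n + 1 : ℕ) : ℝ) ^ (δ - 1) = ((n + 1 : ℕ) : ℝ) ^ δ * (1 / ((n + 1 : ℕ) : ℝ)) := by
        rw [Real.rpow_sub_one hx.ne', mul_one_div]
      rw [e2, e3]
      have := mul_le_mul_of_nonneg_left hb hp.le
      linarith
    have : ((n + 1 : ℕ) : ℝ) ^ (δ - 1) ≤ ((n + 1 : ℕ) : ℝ) ^ δ / δ - (n : ℝ) ^ δ / δ := by
      rw [← sub_div, le_div_iff₀ h0]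
      linarith
    linarith

/-- If a sum is large then infinitely many terms are large. -/
theorem freq {δ c : ℝ} (h0 : 0 < δ) (h1 : δ ≤ 1) (hc : 0 < c) (f : ℕ → ℝ)
    (h : ∀ᶠ n : ℕ in atTop, c * (n : ℝ) ^ δ ≤ ∑ d ∈ Finset.range (n + 1), f d) :
    ∃ᶠ d : ℕ in atTop, c * δ / 2 * (d : ℝ) ^ (δ - 1) ≤ f d := by
  rw [Filter.Frequently]
  intro hcon
  push Not at hcon
  obtain ⟨N, hN⟩ := eventually_atTop.1 (h.and hcon)
  have hb : ∀ n : ℕ, ∑ d ∈ Finset.range (n + 1), f d ≤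
      ∑ d ∈ Finset.range (N + 1), |f d| +
        c * δ / 2 * ∑ d ∈ Finset.range (n + 1), (d : ℝ) ^ (δ - 1) := by
    intro n
    have h2 : ∀ d ∈ Finset.range (n + 1), f d ≤ (if d ≤ N then |f d| else 0) +
        c * δ / 2 * (d : ℝ) ^ (δ - 1) := by
      intro d _
      have hnn : 0 ≤ c * δ / 2 * (d : ℝ) ^ (δ - 1) := by positivity
      by_cases hd : d ≤ N
      · rw [if_pos hd]
        linarith [le_abs_self (f d)]
      · rw [if_neg hd, zero_add]
        exact (hN d (by omega)).2.le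
    refine (Finset.sum_le_sum h2).trans ?_
    rw [Finset.sum_add_distrib, ← Finset.mul_sum, ← Finset.sum_filter]
    refine add_le_add ?_ le_rfl
    refine Finset.sum_le_sum_of_subset_of_nonneg ?_ fun d _ _ => abs_nonneg _
    intro d hd
    rw [Finset.mem_filter] at hd
    rw [Finset.mem_range]
    omega
  set A := ∑ d ∈ Finset.range (N + 1), |f d| with hA
  have hA0 : 0 ≤ A := Finset.sum_nonneg fun d _ => abs_nonneg _
  have hlim : Tendsto (fun n : ℕ => (n : ℝ) ^ δ) atTop atTop :=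
    (tendsto_rpow_atTop h0).comp tendsto_natCast_atTop_atTop
  obtain ⟨n, hn1, hn2⟩ := ((hlim.eventually_gt_atTop (2 * (A + c * δ / 2) / c)).and
    (eventually_ge_atTop N)).exists
  have h3 := (hN n hn2).1
  have h4 := hb n
  have h5 := sum_pow h0 h1 n
  have h6 : c * δ / 2 * ∑ d ∈ Finset.range (n + 1), (d : ℝ) ^ (δ - 1) ≤
      c * δ / 2 * (1 + (n : ℝ) ^ δ / δ) := mul_le_mul_of_nonneg_left h5 (by positivity)
  have h7 : c * δ / 2 * (1 + (n : ℝ) ^ δ / δ) = c * δ / 2 + c / 2 * (n : ℝ) ^ δ := by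
    field_simp
  rw [div_lt_iff₀ hc] at hn1
  nlinarith


/-- From a sum over polynomials to the numbers of polynomials of given degrees. -/
theorem fin_sum {k : Type} [Field k] [Finite k] (S : Set k[X]) (T : ℕ → Set k[X])
    (hT : ∀ d, (T d).Finite) (hsub : ∀ D ∈ S, D ∈ T D.natDegree) {δ c : ℝ} (h0 : 0 < δ)
    (h1 : δ ≤ 1) (hc : 0 < c) {n₀ : ℕ} (h : ∀ n : ℕ, n₀ ≤ n → c * (n : ℝ) ^ δ ≤
      ∑ᶠ D ∈ {D : k[X] | D ∈ S ∧ D.natDegree ≤ n}, ((Nat.card k : ℝ) ^ D.natDegree)⁻¹) :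
    ∃ c' : ℝ, 0 < c' ∧
      (∀ᶠ n : ℕ in atTop, c' * (n : ℝ) ^ δ ≤
        ∑ d ∈ Finset.range (n + 1), ((T d).ncard : ℝ) / (Nat.card k : ℝ) ^ d) ∧
      (∃ᶠ d : ℕ in atTop, c' * (Nat.card k : ℝ) ^ d * (d : ℝ) ^ (δ - 1) ≤
        ((T d).ncard : ℝ)) := by
  have hq : (0 : ℝ) < Nat.card k := by exact_mod_cast Nat.card_pos
  have h2 : ∀ᶠ n : ℕ in atTop, c * (n : ℝ) ^ δ ≤
      ∑ d ∈ Finset.range (n + 1), ((T d).ncard : ℝ) / (Nat.card k : ℝ) ^ d := by
    filter_upwards [eventually_ge_atTop n₀] with n hn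
    refine (h n hn).trans ?_
    rw [sum_deg S n (fun d => ((Nat.card k : ℝ) ^ d)⁻¹)]
    refine Finset.sum_le_sum fun d _ => ?_
    rw [div_eq_mul_inv]
    refine mul_le_mul_of_nonneg_right ?_ (by positivity)
    have h3 : {D : k[X] | D ∈ S ∧ D.natDegree = d} ⊆ T d := by
      rintro D ⟨hD, rfl⟩
      exact hsub D hD
    exact_mod_cast Set.ncard_le_ncard h3 (hT d)
  refine ⟨c * δ / 2, by positivity, ?_, ?_⟩
  · filter_upwards [h2] with n hn
    refine le_trans ?_ hn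
    have h3 : c * δ / 2 ≤ c := by
      have : c * δ ≤ c * 1 := mul_le_mul_of_nonneg_left h1 hc.le
      linarith
    exact mul_le_mul_of_nonneg_right h3 (Real.rpow_nonneg (Nat.cast_nonneg n) _)
  · refine (freq h0 h1 hc _ h2).mono fun d hd => ?_
    rw [le_div_iff₀ (by positivity)] at hd
    linarith

/-- Unramified primes in terms of ideals. -/
theorem val_iff {k M R : Type} [Field k] [Field M] [Algebra k[X] M] [CommRing R]
    [IsDedekindDomain R] [Algebra R M] [IsFractionRing R M] [Algebra k[X] R]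
    [IsScalarTower k[X] R M] (P : k[X]) (w : HeightOneSpectrum R)
    (hP : algebraMap k[X] R P ∈ w.asIdeal) (h : algebraMap k[X] R P ∉ w.asIdeal ^ 2) :
    w.valuation M (algebraMap k[X] M P) = WithZero.exp (-1 : ℤ) := by
  rw [IsScalarTower.algebraMap_apply k[X] R M, HeightOneSpectrum.valuation_of_algebraMap]
  have h1 := (w.intValuation_le_pow_iff_mem (algebraMap k[X] R P) 1).2 (by rwa [pow_one])
  have h2 := w.intValuation_le_pow_iff_mem (algebraMap k[X] R P) 2
  rw [← h2] at h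
  have h0 : w.intValuation (algebraMap k[X] R P) ≠ 0 := by
    intro h3
    apply h
    rw [h3]
    exact zero_le'
  obtain ⟨m, hm⟩ : ∃ m : ℤ, w.intValuation (algebraMap k[X] R P) = WithZero.exp m :=
    ⟨WithZero.log _, (WithZero.exp_log h0).symm⟩
  rw [hm] at h1 h ⊢
  rw [WithZero.exp_le_exp] at h1 h
  push_cast at h1 h
  congr 1
  omega

end Pool.Agent.H467.UM.Cnt
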