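import Pool.Agent.H467.UM.Up3

/-!
# The 2-Selmer group of a twist, with weaker local conditions

Project UM (helper467), after project MR.
-/

set_option autoImplicit false
set_option linter.all false

open Polynomial IsDedekindDomain WithZero
open Pool.Agent.N874.PP Pool.Agent.N352.PP Pool.Agent.N765.PP Pool.Agent.TH115.GD
open Pool.Agent.H467.MR
open scoped Classical

namespace Pool.Agent.H467.UM

open Pool.Agent.N141.PP (vP)

section core

theorem sel_core2 {k K L : Type} (O : Type) [Field k] [Finite k] [Field K] [Algebra k[X] K]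
    [IsFractionRing k[X] K] [Field L] [Algebra K L] [Algebra k[X] L] [IsScalarTower k[X] K L]
    [CommRing O] [IsDedekindDomain O] [Algebra O L] [IsFractionRing O L] [Algebra k[X] O]
    [IsScalarTower k[X] O L] [IsIntegralClosure O k[X] L] [Module.Finite k[X] O]
    [Module.IsTorsionFree k[X] O] {a b : k[X]} {θ : L} (hCLO : S_CLO) (hLIN : S_LIN)
    (hUNI : S_UNI) (hEVI : S_EVI) (hDI : S_DIAGI) (hHP : S_HP) (hT : S_TAME) (h6 : (6 : k) ≠ 0)
    (h : IsCub K a b θ) (hΔ : dsc a b ≠ 0) {Pm : k[X]} (hm : MTp a b Pm)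
    (S : Finset k[X]) (R : k[X] → k[X]) (hS : ∀ Q ∈ S, Q.Monic ∧ STp a b Q (R Q))
    (hsep : ∀ α : L, NS K α → (∀ 𝔓 : HeightOneSpectrum O,
        (∀ P : k[X], Irreducible P → P ∣ dsc a b → ¬ Ov P 𝔓) → Ev 𝔓 α) → ¬ IsSquare α →
      ∃ Q ∈ S, ∃ (p : k[X][X]) (y : L), y ≠ 0 ∧ (∀ z : k[X], ¬ Q ∣ z ^ 2 - p.eval (R Q)) ∧
        NS K (eval₂ (algebraMap k[X] L) θ p) ∧ α = eval₂ (algebraMap k[X] L) θ p * y ^ 2) :
    ∃ J ⊆ S, ∀ D : k[X], D.Monic → Squarefree D → Even D.natDegree →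
      (∀ P : k[X], P.Monic → Irreducible P → P ∣ D →
        P ∈ S ∨ ∀ c : k[X], ¬ P ∣ c ^ 3 + a * c + b) →
      (∀ Q ∈ S, (Q ∣ D ↔ Q ∈ J)) →
      (∀ P : k[X], P.Monic → Irreducible P → P ∣ dsc a b → P ≠ Pm → ∃ z : k[X], P ∣ z ^ 2 - D) →
      SelD (K := K) O J a b D θ := by
  haveI : FiniteDimensional K L := Module.finite_of_finrank_pos (by rw [h.rank]; norm_num)
  haveI : Algebra.IsIntegral k[X] O := IsIntegralClosure.isIntegral_algebra k[X] L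
  have h2 : (2 : k) ≠ 0 := by
    intro h0; apply h6
    have : (6 : k) = 2 * 3 := by norm_num
    rw [this, h0, zero_mul]
  have hqd0 : ∀ Q : S, ∃ e η : L → Prop, QD O h (Q : k[X]) (R Q) (vP Q.1 (hS Q.1 Q.2).2.irr) e η :=
    fun Q => exists_qd hUNI h6 h (hS Q.1 Q.2).2 rfl
  choose e η hqd using hqd0
  -- the group `M`
  let M : Set L := {α | NS K α ∧ WcL (algebraMap K (CompInf k K)) h α ∧
    (∀ P : k[X], P.Monic → ∀ hP : Irreducible P, P ∣ dsc a b → P ≠ Pm →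
      WcL (algebraMap K ((vP P hP).adicCompletion K)) h α) ∧
    (∀ P : k[X], P.Monic → Irreducible P → P ∉ S → (¬ P ∣ dsc a b ∨ P = Pm) →
      ∀ 𝔓 : HeightOneSpectrum O, Ov P 𝔓 → Ev 𝔓 α)}
  let ψ : L → (S → ZMod 2 × ZMod 2) := fun α Q =>
    (if e Q α then 0 else 1, if η Q α then 0 else 1)
  have hψ : ∀ α β : L, NS K α → NS K β → ψ (α * β) = ψ α + ψ β := by
    intro α β hα hβ
    funext Q
    exact Prod.ext (cl_add_aux ((hqd Q).e_mul α β hα hβ)) (cl_add_aux ((hqd Q).h_mul α β hα hβ))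
  have hMmul : ∀ α β, α ∈ M → β ∈ M → α * β ∈ M := by
    rintro α β ⟨h1, h3, h4, h5⟩ ⟨h1', h3', h4', h5'⟩
    exact ⟨h1.mul h1', wcl_mul _ h hCLO h6 hΔ h3 h3',
      fun P hPm hP hPd hPn => wcl_mul _ h hCLO h6 hΔ (h4 P hPm hP hPd hPn) (h4' P hPm hP hPd hPn),
      fun P hPm hP hPS hPd 𝔓 h𝔓 => ev_mul' 𝔓 (h5 P hPm hP hPS hPd 𝔓 h𝔓)
        (h5' P hPm hP hPS hPd 𝔓 h𝔓)⟩
  have hM1 : (1 : L) ∈ M := ⟨NS.one, wcl_one _ h, fun P _ hP _ _ => wcl_one _ h,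
    fun P _ _ _ _ 𝔓 _ => ⟨1, by rw [map_one, one_pow]⟩⟩
  let Λ : AddSubgroup (S → ZMod 2 × ZMod 2) :=
    { carrier := {l | ∃ α ∈ M, ψ α = l}
      add_mem' := by
        rintro _ _ ⟨α, hα, rfl⟩ ⟨β, hβ, rfl⟩
        exact ⟨α * β, hMmul α β hα hβ, hψ α β hα.1 hβ.1⟩
      zero_mem' := by
        refine ⟨1, hM1, ?_⟩
        have h := hψ 1 1 NS.one NS.one
        rw [mul_one] at h
        exact left_eq_add.1 h
      neg_mem' := by
        rintro _ ⟨α, hα, rfl⟩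
        refine ⟨α, hα, ?_⟩
        rw [eq_neg_iff_add_eq_zero]
        funext Q
        exact Prod.ext (CharTwo.add_self_eq_zero _) (CharTwo.add_self_eq_zero _) }
  have hiso : ∀ l ∈ Λ, ∑ Q : S, (l Q).1 * (l Q).2 = 0 := by
    rintro _ ⟨α, ⟨hα, hinf, hbad, hev⟩, rfl⟩
    -- isotropy outside `S`
    have hout : ∀ P : k[X], P.Monic → ∀ hP : Irreducible P, ¬ IsoAt h (vP P hP) α → P ∈ S := by
      intro P hPm hP hn
      by_contra hPS
      apply hn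
      by_cases hPd : P ∣ dsc a b
      · by_cases hPPm : P = Pm
        · -- the place of multiplicative reduction
          obtain ⟨R', r, d, hR', hf, hst, hrR⟩ := mt_of (K := K) h6 hm
            (v := vP P hP) (by rw [hPPm.symm]; rfl)
          subst hPPm
          obtain ⟨𝔓₀, 𝔮, h1, h3, hf0, hfq, hne, hall, hlt, hod⟩ :=
            mt_primes (O := O) h6 h hm rfl hR' hf hst hrR
          have hL := lf (K := K) h2 hP (v := vP P hP) rfl
          rw [isoAt_iff]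
          refine MT.iso hL hst (cE_nsq h _ hα.inv.1 hα.inv.2) ?_
          have h4 := hev P hPm hP hPS (Or.inr rfl) 𝔓₀ h1
          rw [ev_iff 𝔓₀ hα.1] at h4
          rw [← hod _ hα.inv.1, od_inv, even_neg]
          exact h4
        · rw [isoAt_iff]
          exact wcl_iso _ h hΔ hα.1 (hbad P hPm hP hPd hPPm)
      · exact hUNI k K L O a b θ h6 h P (vP P hP) hP rfl hPd α hα.1
          (hev P hPm hP hPS (Or.inl hPd))
    have hrec := rec_gen hDI hHP hT h6 h hα (wcl_iso _ h hΔ hα.1 hinf) S hout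
    have e1 : ∑ Q : S, (ψ α Q).1 * (ψ α Q).2 = ∑ Q ∈ S,
        (if (Q.Monic ∧ ∃ hP : Irreducible Q, ¬ IsoAt h (vP Q hP) α) then (1 : ZMod 2) else 0) := by
      rw [← Finset.sum_coe_sort S]
      refine Finset.sum_congr rfl fun Q _ => ?_
      refine ite_mul_aux ?_
      rw [← (hqd Q).iso α hα]
      constructor
      · intro h1
        by_contra h3
        exact h1 ⟨(hS Q.1 Q.2).1, (hS Q.1 Q.2).2.irr, h3⟩
      · rintro h1 ⟨-, hP, h3⟩
        exact h3 h1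
    rw [e1, Finset.sum_ite, Finset.sum_const_zero, add_zero, Finset.sum_const, nsmul_eq_mul,
      mul_one]
    exact (ZMod.natCast_eq_zero_iff_even).2 hrec
  obtain ⟨J, hJ⟩ := hLIN S Λ hiso
  let J' : Finset k[X] := S.filter fun Q => ∃ h : Q ∈ S, (⟨Q, h⟩ : S) ∈ J
  have hJ'S : J' ⊆ S := Finset.filter_subset _ _
  refine ⟨J', hJ'S, fun D hDm hDsq hDe hDP hDJ hDbad p hα hloc hloce hlinf => ?_⟩
  have hD0 : D ≠ 0 := hDm.ne_zero
  set α : L := aeval (algebraMap k[X] L D * θ) p with hαdef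
  have hDd : ∀ P : k[X], P.Monic → Irreducible P → P ∣ D → ¬ P ∣ dsc a b := by
    intro P hPm hP hPD hPd
    rcases hDP P hPm hP hPD with h1 | h1
    · exact (hS P h1).2.dsc hPd
    · obtain ⟨c, hc⟩ := root_of_dsc h6 hP hPd
      exact h1 c hc
  -- nice primes not dividing `D`
  have hev1 : ∀ (P : k[X]) (𝔓 : HeightOneSpectrum O), P.Monic → ∀ hP : Irreducible P, Ov P 𝔓 →
      (¬ P ∣ dsc a b ∨ P = Pm) → ¬ P ∣ D → Ev 𝔓 α := by
    intro P 𝔓 hPm hP hP𝔓 hPd hPD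
    by_cases hd : P ∣ dsc a b
    · have hPm' : P = Pm := hPd.resolve_left (fun h1 => h1 hd)
      have hnice : Nice O θ P := by
        rw [hPm']
        exact nice_mult (K := K) h6 h hm
      exact loc1n h (v := vP P hP) hP rfl hnice hPD hα.1 hα.2 (hloc P hPm hP (Or.inl hd)) 𝔓 hP𝔓
    · by_cases hr : ∃ c : k[X], P ∣ c ^ 3 + a * c + b
      · exact hloce P hPm hP hd hPD hr 𝔓 hP𝔓
      · push Not at hr
        exact hEVI k K L O a b θ h6 h P hP hr α hα.1 hα.2 𝔓 hP𝔓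
  have hαM : α ∈ M := by
    refine ⟨hα, ?_, ?_, ?_⟩
    · obtain ⟨δ, hδ⟩ := inf_sq (K := K) h2 hDm hDe
      exact wcl_of_loc h h6 hΔ hD0 hδ hα.1 hα.2 hlinf
    · intro P hPm hP hPd hPn
      obtain ⟨z, hz⟩ := hDbad P hPm hP hPd hPn
      have hPD : ¬ P ∣ D := fun h1 => hDd P hPm hP h1 hPd
      obtain ⟨u, hu, -⟩ := sq_of_res (K := K) hP (v := vP P hP) rfl h2 hPD (z := z) hz
      have hl := hloc P hPm hP (Or.inl hPd)
      rw [polyLoc_iff] at hl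
      exact wcl_of_loc h h6 hΔ hD0 hu.symm hα.1 hα.2 hl
    · intro P hPm hP hPS hPd 𝔓 h𝔓
      by_cases hPD : P ∣ D
      · rcases hDP P hPm hP hPD with h1 | h1
        · exact absurd h1 hPS
        · exact hEVI k K L O a b θ h6 h P hP h1 α hα.1 hα.2 𝔓 h𝔓
      · exact hev1 P 𝔓 hPm hP h𝔓 hPd hPD
  have hz : ψ α = 0 := by
    refine hJ _ ⟨α, hαM, rfl⟩ (fun Q hQ => ?_) (fun Q hQ => ?_)
    · have hQJ : (Q : k[X]) ∈ J' := Finset.mem_filter.2 ⟨Q.2, Q.2, hQ⟩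
      have hQD : (Q : k[X]) ∣ D := (hDJ Q.1 Q.2).2 hQJ
      obtain ⟨D', hD'⟩ := hQD
      have hnd : ¬ (Q : k[X]) ∣ D' := by
        rintro ⟨D'', hD''⟩
        have h1 : (Q : k[X]) * Q ∣ D := ⟨D'', by rw [hD', hD'']; ring⟩
        exact (hS Q.1 Q.2).2.irr.not_isUnit (hDsq _ h1)
      refine if_pos ?_
      have h3 := (hqd Q).tw D' p hnd
      rw [← hD'] at h3
      exact h3 hα (hloc Q.1 (hS Q.1 Q.2).1 (hS Q.1 Q.2).2.irr (Or.inr hQJ))
    · have hQJ : (Q : k[X]) ∉ J' := fun h => hQ (Finset.mem_filter.1 h).2.2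
      have hQD : ¬ (Q : k[X]) ∣ D := fun h1 => hQJ ((hDJ Q.1 Q.2).1 h1)
      refine if_pos ?_
      rw [(hqd Q).e_iff α hα]
      exact fun 𝔓 h𝔓 => hev1 Q.1 𝔓 (hS Q.1 Q.2).1 (hS Q.1 Q.2).2.irr h𝔓
        (Or.inl (hS Q.1 Q.2).2.dsc) hQD
  have hz1 : ∀ Q : S, e Q α ∧ η Q α := by
    intro Q
    have h1 := congrFun hz Q
    have h3 := congrArg Prod.fst h1
    have h4 := congrArg Prod.snd h1
    constructor
    · by_contra hn
      have : (if e Q α then (0 : ZMod 2) else 1) = 0 := h3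
      rw [if_neg hn] at this
      exact one_ne_zero this
    · by_contra hn
      have : (if η Q α then (0 : ZMod 2) else 1) = 0 := h4
      rw [if_neg hn] at this
      exact one_ne_zero this
  by_contra hns
  obtain ⟨Q, hQ, q, y, hy, hq, hqn, hαq⟩ := hsep α hα (fun 𝔓 h𝔓 => by
    obtain ⟨P, hPm, hP, hP𝔓⟩ := exists_below (k := k) 𝔓
    have hPd : ¬ P ∣ dsc a b := fun h1 => h𝔓 P hP h1 hP𝔓
    by_cases hPS : P ∈ S
    · exact ((hqd ⟨P, hPS⟩).e_iff α hα).1 (hz1 ⟨P, hPS⟩).1 𝔓 hP𝔓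
    · exact hαM.2.2.2 P hPm hP hPS (Or.inl hPd) 𝔓 hP𝔓) hns
  have h1 := hz1 ⟨Q, hQ⟩
  rw [hαq] at h1
  exact (hqd ⟨Q, hQ⟩).ns q hq y hy hqn h1.1 h1.2

end core

end Pool.Agent.H467.UM
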