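import Pool.Agent.H467.UM.Wl

/-!
# The condition that a class comes from a point, for elements of a cubic extension

Project UM (helper467).
-/

set_option autoImplicit false
set_option linter.all false

open Polynomial IsDedekindDomain
open Pool.Agent.N874.PP Pool.Agent.N765.PP Pool.Agent.H467.MR
open scoped Classical

namespace Pool.Agent.H467.UM

/-- The local condition for a homomorphism to a field. -/
def PLh {M E : Type} [Field M] [Field E] (ψ : M →+* E) (A B : M) (h : M[X]) : Prop :=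
  (∃ g : E[X], cub (ψ A) (ψ B) ∣ h.map ψ - g ^ 2) ∨
  ∃ x y : E, y ^ 2 = x ^ 3 + ψ A * x + ψ B ∧
    ∃ g : E[X], cub (ψ A) (ψ B) ∣ (C x - X) * h.map ψ - g ^ 2

theorem plh_comp {M E E' : Type} [Field M] [Field E] [Field E'] {ψ : M →+* E} (φ : E →+* E')
    {A B : M} {h : M[X]} (hl : PLh ψ A B h) : PLh (φ.comp ψ) A B h := by
  have hcub : (cub (ψ A) (ψ B)).map φ = cub (φ (ψ A)) (φ (ψ B)) := by
    unfold cub
    simp
  have hh : (h.map ψ).map φ = h.map (φ.comp ψ) := by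
    rw [Polynomial.map_map]
  rcases hl with ⟨g, hg⟩ | ⟨x, y, hxy, g, hg⟩
  · left
    refine ⟨g.map φ, ?_⟩
    have := Polynomial.map_dvd φ hg
    rwa [hcub, Polynomial.map_sub, hh, Polynomial.map_pow] at this
  · right
    refine ⟨φ x, φ y, ?_, g.map φ, ?_⟩
    · rw [← map_pow, hxy]
      simp
    · have := Polynomial.map_dvd φ hg
      rwa [hcub, Polynomial.map_sub, Polynomial.map_mul, hh, Polynomial.map_pow,
        Polynomial.map_sub, map_X, map_C] at this

section cub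

variable {k M Ω : Type} [Field k] [Field M] [Algebra k[X] M] [Field Ω] [Algebra M Ω]
  [Algebra k[X] Ω] [IsScalarTower k[X] M Ω] {A B : k[X]} {Θ : Ω}

theorem rootM (h : IsCub M A B Θ) : Θ ^ 3 + algebraMap M Ω (algebraMap k[X] M A) * Θ +
    algebraMap M Ω (algebraMap k[X] M B) = 0 := by
  have h1 := h.root
  rwa [IsScalarTower.algebraMap_apply k[X] M Ω A, IsScalarTower.algebraMap_apply k[X] M Ω B] at h1

theorem rvM_aeval (h : IsCub M A B Θ) (p : M[X]) :
    cK h (aeval Θ p) = rv (algebraMap k[X] M A) (algebraMap k[X] M B) p := by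
  refine cK_of h ?_
  obtain ⟨q, hq⟩ := rv_spec (A := algebraMap k[X] M A) (B := algebraMap k[X] M B) p
  have h1 := congrArg (aeval Θ) hq
  have h2 : aeval Θ (cub (algebraMap k[X] M A) (algebraMap k[X] M B)) = 0 := by
    unfold cub
    simp only [map_add, map_mul, map_pow, aeval_X, aeval_C]
    exact rootM h
  rw [map_mul, h2, zero_mul, map_sub, sub_eq_zero] at h1
  rw [h1]
  unfold pl3
  simp only [map_add, map_mul, map_pow, aeval_X, aeval_C]

variable {E : Type} [Field E] (ψ : M →+* E)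

theorem rvM_map (h : IsCub M A B Θ) (p : M[X]) :
    rv (ψ (algebraMap k[X] M A)) (ψ (algebraMap k[X] M B)) (p.map ψ) = cE ψ h (aeval Θ p) := by
  refine rv_unique ?_
  obtain ⟨q, hq⟩ := rv_spec (A := algebraMap k[X] M A) (B := algebraMap k[X] M B) p
  refine ⟨q.map ψ, ?_⟩
  have h1 := congrArg (Polynomial.map ψ) hq
  have e1 : (cub (algebraMap k[X] M A) (algebraMap k[X] M B)).map ψ =
      cub (ψ (algebraMap k[X] M A)) (ψ (algebraMap k[X] M B)) := by
    unfold cub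
    simp
  have e2 : (pl3 (rv (algebraMap k[X] M A) (algebraMap k[X] M B) p)).map ψ =
      pl3 (cE ψ h (aeval Θ p)) := by
    unfold pl3 cE
    rw [rvM_aeval h]
    simp
  rw [Polynomial.map_mul, Polynomial.map_sub, e1, e2] at h1
  exact h1

/-- The class of `x` comes from a point of the curve over `E`. -/
def CW {k M Ω : Type} [Field k] [Field M] [Algebra k[X] M] [Field Ω] [Algebra M Ω] {E : Type}
    [Field E] (ψ : M →+* E) (A B : k[X]) (Θ x : Ω) : Prop :=
  ∃ p : M[X], aeval Θ p = x ∧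
    Wc (ψ (algebraMap k[X] M A)) (ψ (algebraMap k[X] M B)) (p.map ψ)

theorem sixE {k M E : Type} [Field k] [Field M] [Algebra k[X] M] [Field E] (ψ : M →+* E)
    (h6 : (6 : k) ≠ 0) : (6 : E) ≠ 0 := by
  have e : (6 : E) = (ψ.comp ((algebraMap k[X] M).comp C)) 6 := by
    rw [map_ofNat]
  rw [e, Ne, map_eq_zero]
  exact h6

theorem twoE {k M E : Type} [Field k] [Field M] [Algebra k[X] M] [Field E] (ψ : M →+* E)
    (h6 : (6 : k) ≠ 0) : (2 : E) ≠ 0 := by
  intro h0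
  apply sixE ψ h6
  have : (6 : E) = 2 * 3 := by norm_num
  rw [this, h0, zero_mul]

theorem discE {k M E : Type} [Field k] [Field M] [Algebra k[X] M] [Field E] (ψ : M →+* E)
    (hinj : Function.Injective (algebraMap k[X] M)) {A B : k[X]} (hΔ : 4 * A ^ 3 + 27 * B ^ 2 ≠ 0) :
    4 * (ψ (algebraMap k[X] M A)) ^ 3 + 27 * (ψ (algebraMap k[X] M B)) ^ 2 ≠ 0 := by
  have e : 4 * (ψ (algebraMap k[X] M A)) ^ 3 + 27 * (ψ (algebraMap k[X] M B)) ^ 2 =
      ψ (algebraMap k[X] M (4 * A ^ 3 + 27 * B ^ 2)) := by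
    simp only [map_add, map_mul, map_pow, map_ofNat]
  rw [e, Ne, map_eq_zero, map_eq_zero_iff _ hinj]
  exact hΔ

theorem cw_mul (hC : S_CLO) (h6 : (6 : k) ≠ 0) (hinj : Function.Injective (algebraMap k[X] M))
    (hΔ : 4 * A ^ 3 + 27 * B ^ 2 ≠ 0) {x y : Ω} (hx : CW ψ A B Θ x) (hy : CW ψ A B Θ y) :
    CW ψ A B Θ (x * y) := by
  obtain ⟨p, hp, h1⟩ := hx
  obtain ⟨q, hq, h2⟩ := hy
  refine ⟨p * q, by rw [map_mul, hp, hq], ?_⟩
  rw [Polynomial.map_mul]
  exact hC E _ _ (sixE ψ h6) (discE ψ hinj hΔ) _ _ h1 h2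

theorem cw_sq (p : M[X]) : CW ψ A B Θ ((aeval Θ p) ^ 2) := by
  refine ⟨p ^ 2, by rw [map_pow], 1, p.map ψ, IsMu.one, ?_⟩
  rw [one_mul, Polynomial.map_pow, sub_self]
  exact dvd_zero _

theorem wc_of_cw (h : IsCub M A B Θ) {p : M[X]} (hx : CW ψ A B Θ (aeval Θ p)) :
    Wc (ψ (algebraMap k[X] M A)) (ψ (algebraMap k[X] M B)) (p.map ψ) := by
  obtain ⟨q, hq, h1⟩ := hx
  refine wc_congr (dvd_of_rv_eq ?_) h1
  rw [rvM_map ψ h, rvM_map ψ h, hq]

/-- From the local condition to the condition that the class comes from a point. -/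
theorem cw_of_loc (h6 : (6 : k) ≠ 0) (hinj : Function.Injective (algebraMap k[X] M))
    (hΔ : 4 * A ^ 3 + 27 * B ^ 2 ≠ 0) (h : IsCub M A B Θ) {p : M[X]} (hne : aeval Θ p ≠ 0)
    (hN : IsSquare (Algebra.norm M (aeval Θ p)))
    (hl : PLh ψ (algebraMap k[X] M A) (algebraMap k[X] M B) p) : CW ψ A B Θ (aeval Θ p) := by
  refine ⟨p, rfl, ?_⟩
  refine wc_of_loc (twoE ψ h6) (discE ψ hinj hΔ) ?_ hl
  rw [rvM_map ψ h]
  exact cE_nsq h ψ hne hN

/-- Galois automorphisms. -/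
theorem cw_sig {τ : M ≃+* M} {σ : Ω ≃+* Ω} (hτ : ∀ c : k[X], τ (algebraMap k[X] M c) =
    algebraMap k[X] M c) (hσ : ∀ x : M, σ (algebraMap M Ω x) = algebraMap M Ω (τ x))
    (hΘ : σ Θ = Θ) {x : Ω} (hx : CW (ψ.comp τ.toRingHom) A B Θ x) : CW ψ A B Θ (σ x) := by
  obtain ⟨p, hp, h1⟩ := hx
  refine ⟨p.map τ.toRingHom, ?_, ?_⟩
  · rw [← hp, aeval_def, aeval_def, eval₂_map]
    have e : σ (eval₂ (algebraMap M Ω) Θ p) =
        eval₂ (σ.toRingHom.comp (algebraMap M Ω)) (σ Θ) p :=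
      hom_eval₂ p (algebraMap M Ω) σ.toRingHom Θ
    rw [e, hΘ]
    congr 1
    ext y
    exact (hσ y).symm
  · rw [Polynomial.map_map]
    have e1 : (ψ.comp τ.toRingHom) (algebraMap k[X] M A) = ψ (algebraMap k[X] M A) := by
      show ψ (τ (algebraMap k[X] M A)) = _
      rw [hτ]
    have e2 : (ψ.comp τ.toRingHom) (algebraMap k[X] M B) = ψ (algebraMap k[X] M B) := by
      show ψ (τ (algebraMap k[X] M B)) = _
      rw [hτ]
    rw [e1, e2] at h1
    exact h1

end cub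

end Pool.Agent.H467.UM
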