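import Pool.Agent.H467.UM.Spec

/-!
# Galois cohomology side over an arbitrary field, with an arbitrary class of local conditions

Project UM (helper467), part GALM (helper721).
-/

set_option autoImplicit false
set_option linter.all false

open Polynomial IsDedekindDomain WeierstrassCurve WeierstrassCurve.Affine
open Pool.Agent.N874.PP Pool.Agent.TH115.GD Pool.Agent.H467.MR
open scoped Classical

namespace Pool.Agent.H467.UM.Galm

open Pool.Agent.N721.PP (half ltSmul isS IsS)
open Pool.Agent.H467.MR.Gali (glE cobLocE)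

variable {M : Type} [Field M] {A B : M}

/-- The local conditions. -/
def LT (Pl : ∀ (E : Type) [Field E] [Algebra M E], Prop) (W : WeierstrassCurve M)
    (f : (Sep M ≃ₐ[M] Sep M) → Pt W (Sep M)) : Prop :=
  ∀ (E : Type) [Field E] [Algebra M E], Pl E → LocTriv W E (Sep E) f

theorem gf_aux (Pl : ∀ (E : Type) [Field E] [Algebra M E], Prop) (h6 : (6 : M) ≠ 0)
    (hd : 4 * A ^ 3 + 27 * B ^ 2 ≠ 0)
    (hS : ∀ f : (Sep M ≃ₐ[M] Sep M) → Pt (sW A B) (Sep M), IsCoc (sW A B) f →
      (∀ σ, (2 : ℕ) • f σ = 0) → LT Pl (sW A B) f →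
      ∃ T : Pt (sW A B) (Sep M), (2 : ℕ) • T = 0 ∧ ∀ σ, f σ = act (sW A B) (rs M σ) T - T) :
    (∀ P : Pt (sW A B) M, ∃ Q : Pt (sW A B) M, P = (2 : ℕ) • Q) ∧
    ∀ f : (Sep M ≃ₐ[M] Sep M) → Pt (sW A B) (Sep M), IsCoc (sW A B) f → LT Pl (sW A B) f →
    (∃ (n : ℕ) (R : Pt (sW A B) (Sep M)), ∀ σ, 2 ^ n • f σ = act (sW A B) (rs M σ) R - R) →
    ∃ R : Pt (sW A B) (Sep M), ∀ σ, f σ = act (sW A B) (rs M σ) R - R := by
  haveI : Algebra.IsSeparable M (Sep M) := IsSepClosure.separable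
  haveI : IsGalois M (Sep M) := inferInstance
  constructor
  · intro P
    obtain ⟨R, hR⟩ := half h6 hd (act (sW A B) (incl M M (Sep M)) P)
    have hfix : ∀ σ : Sep M ≃ₐ[M] Sep M, act (sW A B) (rs M σ) (R + R) = R + R := fun σ => by
      rw [hR]; exact rs_act_incl _ σ P
    obtain ⟨T, hT2, hT⟩ := hS (fun σ => act (sW A B) (rs M σ) R - R) (cob_isCoc _ R)
      (fun σ => by
        rw [two_nsmul, sub_add_sub_comm, ← map_add, hfix, sub_self])
      (fun E _ _ _ => cobLocE _ E R)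
    obtain ⟨Q, hQ⟩ := fixed_point (K := M) (F := M) (sW A B) (R - T) (fun σ => by
      have h1 := hT σ
      rw [map_sub]
      have h2 : act (sW A B) (rs M σ) R = R + (act (sW A B) (rs M σ) T - T) := by
        rw [← h1]; abel
      rw [h2]; abel)
    refine ⟨Q, act_inj (sW A B) (incl M M (Sep M)) ?_⟩
    rw [map_nsmul, hQ, smul_sub, hT2, sub_zero, two_nsmul, hR]
  · have key : ∀ g : (Sep M ≃ₐ[M] Sep M) → Pt (sW A B) (Sep M), IsCoc (sW A B) g →
        LT Pl (sW A B) g →
        (∃ R : Pt (sW A B) (Sep M), ∀ σ, 2 • g σ = act (sW A B) (rs M σ) R - R) →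
        ∃ R : Pt (sW A B) (Sep M), ∀ σ, g σ = act (sW A B) (rs M σ) R - R := by
      rintro g hg hl ⟨R, hR⟩
      obtain ⟨S, hS'⟩ := half h6 hd R
      obtain ⟨T, -, hT⟩ := hS (fun σ => g σ - (act (sW A B) (rs M σ) S - S))
        (hg.sub _ (cob_isCoc _ _))
        (fun σ => by
          rw [smul_sub, hR, two_nsmul, sub_add_sub_comm, ← map_add, hS', sub_self])
        (fun E _ _ hE => LocTriv.sub _ (hl E hE) S)
      refine ⟨T + S, fun σ => ?_⟩
      have h1 := hT σ
      have h2 : g σ = (act (sW A B) (rs M σ) T - T) + (act (sW A B) (rs M σ) S - S) := by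
        rw [← h1]; abel
      rw [h2, map_add]
      abel
    intro f hf hl ⟨n, hn⟩
    induction n with
    | zero =>
      obtain ⟨R, hR⟩ := hn
      exact ⟨R, fun σ => by rw [← hR, pow_zero, one_smul]⟩
    | succ n ih =>
      apply ih
      refine key (fun σ => 2 ^ n • f σ) ?_ ?_ ?_
      · refine ⟨hf.lc.comp (fun a => 2 ^ n • a), fun σ τ => ?_⟩
        show 2 ^ n • f (σ * τ) = 2 ^ n • f σ + act (sW A B) (rs M σ) (2 ^ n • f τ)
        rw [hf.mul, map_nsmul, smul_add]
      · exact fun E _ _ hE => ltSmul (hl E hE) _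
      · obtain ⟨R, hR⟩ := hn
        refine ⟨R, fun σ => ?_⟩
        rw [← hR, pow_succ', mul_smul]

theorem no_two (h2 : (2 : M) ≠ 0) (hirr : Irreducible (X ^ 3 + C A * X + C B : M[X]))
    (P : Pt (sW A B) M) (hP : (2 : ℕ) • P = 0) : P = 0 := by
  rcases P with _ | ⟨x, y, h⟩
  · rfl
  · exfalso
    have hI : IsS ((sW A B).baseChange M).toAffine A B := isS A B M
    have h1 : (Point.some x y h : Pt (sW A B) M) = - Point.some x y h := by
      rw [two_nsmul] at hP
      exact eq_neg_of_add_eq_zero_left hP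
    have h3 : y = -y := by
      have h4 : (Point.some x y h : Pt (sW A B) M) =
          Point.some x (((sW A B).baseChange M).toAffine.negY x y) _ := h1
      have h5 := (Point.some.inj h4).2
      rwa [hI.negY] at h5
    have hy : y = 0 := by
      have h4 : 2 * y = 0 := by linear_combination h3
      exact (mul_eq_zero.1 h4).resolve_left h2
    have h6 := (((sW A B).baseChange M).toAffine.nonsingular_iff x y).1 h
    have h7 := (((sW A B).baseChange M).toAffine.equation_iff x y).1 h6.1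
    rw [hI.a1, hI.a2, hI.a3, hI.a4, hI.a6, hy] at h7
    have h8 : x ^ 3 + A * x + B = 0 := by linear_combination -h7
    have h9 : IsRoot (X ^ 3 + C A * X + C B : M[X]) x := by
      simp only [IsRoot.def, eval_add, eval_mul, eval_pow, eval_X, eval_C]
      exact h8
    have h10 := degree_eq_one_of_irreducible_of_root hirr h9
    have h11 : (X ^ 3 + C A * X + C B : M[X]).degree = 3 := by compute_degree!
    rw [h11] at h10
    exact absurd h10 (by decide)

/-- **GALM** -/
theorem galm : S_GALM := by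
  intro M Ω _ _ _ A B Θ Pl h6 hd hirr hΘ hrank hsel
  have hGP1 : S_GP1 := N630.PP.gp1
  have hGP2 : S_GP2 := N630.PP.gp2
  have hGP3 : S_GP3 := N630.PP.gp3
  have hGP4 : S_GP4 := N630.PP.gp4
  have hGB : S_GB := N187.PP.gb hGP3 hGP4
  have hGN : S_GN := N187.PP.gn hGP3 hGP4
  have hGT : S_GT := N187.PP.gt hGP3 hGP4
  have h2 : (2 : M) ≠ 0 := by
    intro h
    apply h6
    rw [show (6 : M) = 2 * 3 by norm_num, h, zero_mul]
  obtain ⟨hdiv, hsha⟩ := gf_aux Pl h6 hd (by
    intro f hf h2f hloc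
    obtain ⟨β, hβ⟩ := hGB M _ _ h6 hd hirr f hf h2f
    obtain ⟨h, hh, hn⟩ := hGN M _ _ h6 hd hirr f hf h2f β hβ
    have hn2 := hn Ω _ hΘ hrank
    have hsq := hsel h hn2.1 hn2.2
      (fun E _ _ hE => glE hGP1 hGP2 hGP3 hGP4 _ _ h6 hd f hf h2f β h hβ hh (hloc E hE))
    exact hGT M _ _ h6 hd hirr f hf h2f β h hβ hh _ _ hΘ hrank hsq)
  exact ⟨hdiv, no_two h2 hirr, hsha⟩

end Pool.Agent.H467.UM.Galm
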