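import Pool.Agent.H467.UM.Spec

/-!
# An embedding in a completion factors through a completion

Project UM (helper467), part HOM, by helper788. The extension by continuity is the one of
`Pool.Agent.TH115.GD.exists_compl_map`, for a homomorphism to a completion.
-/

set_option autoImplicit false
set_option linter.all false

open Polynomial IsDedekindDomain


open WithZero Filter Topology MonoidWithZeroHom

namespace Pool.Agent.H467.UM.Hom

section compl

variable {A F B M : Type*} [CommRing A] [IsDedekindDomain A] [Field F] [Algebra A F]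
  [IsFractionRing A F] [CommRing B] [IsDedekindDomain B] [Field M] [Algebra B M]
  [IsFractionRing B M] (v : HeightOneSpectrum A) (w : HeightOneSpectrum B)
  (f : F →+* w.adicCompletion M)
  (h1 : ∀ x, v.valuation F x ≤ 1 → Valued.v (f x) ≤ 1)
  (h2 : ∀ x, v.valuation F x < 1 → Valued.v (f x) < 1)

include h1 h2 in
theorem exp_bound {π : F} (hπ : v.valuation F π = exp (-1 : ℤ)) (n : ℕ) (x : F)
    (hx : v.valuation F x < v.valuation F (π ^ n)) :
    Valued.v (f x) ≤ exp (-(n : ℤ)) := by
  have hπ0 : π ≠ 0 := by
    rintro rfl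
    rw [map_zero] at hπ
    exact exp_ne_zero hπ.symm
  have e : x = π ^ n * (x / π ^ n) := by
    field_simp
  have h3 : v.valuation F (x / π ^ n) ≤ 1 := by
    rw [map_div₀]
    have hp : v.valuation F (π ^ n) ≠ 0 := (Valuation.ne_zero_iff _).2 (pow_ne_zero n hπ0)
    exact (div_le_one₀ (zero_lt_iff.2 hp)).2 hx.le
  have h4 : Valued.v (f π) ≤ exp (-1 : ℤ) := by
    have h5 := h2 π (by rw [hπ, ← exp_zero, exp_lt_exp]; norm_num)
    by_cases h0 : Valued.v (f π) = 0
    · rw [h0]; exact zero_le
    · have h6 : exp (log (Valued.v (f π))) = Valued.v (f π) := exp_log h0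
      rw [← h6, ← exp_zero, exp_lt_exp] at h5
      rw [← h6, exp_le_exp]
      omega
  rw [e, map_mul f, map_mul, map_pow f, map_pow]
  calc Valued.v (f π) ^ n * Valued.v (f (x / π ^ n))
      ≤ exp (-1 : ℤ) ^ n * 1 := mul_le_mul' (pow_le_pow_left₀ zero_le h4 n) (h1 _ h3)
    _ = exp (-(n : ℤ)) := by
      rw [mul_one, ← exp_nsmul]
      congr 1
      simp

/-- The field with the topology of the valuation. -/
noncomputable def wf : WithVal (v.valuation F) →+* w.adicCompletion M :=
  f.comp (WithVal.equiv (v.valuation F)).toRingHom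

include h1 h2 in
theorem wf_cont : Continuous (wf v w f) := by
  have key : ContinuousAt (wf v w f).toAddMonoidHom 0 := by
    show Tendsto (wf v w f) (𝓝 0) (𝓝 (wf v w f 0))
    rw [map_zero]
    intro s hs
    obtain ⟨γ, hγ⟩ := Valued.mem_nhds_zero.1 hs
    have hg : ValueGroup₀.embedding γ.1 ≠ 0 := by
      rw [Ne, map_eq_zero]
      exact γ.ne_zero
    obtain ⟨n, hn, -⟩ := exists_exp_neg_natCast_lt_and_lt hg hg
    obtain ⟨π, hπ⟩ := v.valuation_exists_uniformizer F
    have hπ0 : π ≠ 0 := by
      rintro rfl
      rw [map_zero] at hπ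
      exact exp_ne_zero hπ.symm
    have hne : (Valued.v (R := WithVal (v.valuation F))).restrict
        (WithVal.toVal (v.valuation F) (π ^ n)) ≠ 0 := by
      rw [Valuation.ne_zero_iff]
      intro h
      exact pow_ne_zero n hπ0 ((WithVal.toVal_eq_zero _ _).1 h)
    rw [Filter.mem_map, Valued.mem_nhds_zero]
    refine ⟨Units.mk0 _ hne, fun x hx => hγ ?_⟩
    have hx' : Valued.v x < Valued.v (WithVal.toVal (v.valuation F) (π ^ n)) :=
      (Valuation.restrict_lt_iff _).1 hx
    show (Valued.v (R := w.adicCompletion M)).restrict (wf v w f x) < γ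
    rw [Valuation.restrict_lt_iff_lt_embedding]
    refine lt_of_le_of_lt ?_ hn
    exact exp_bound v w f h1 h2 hπ n x.ofVal hx'
  exact continuous_of_continuousAt_zero (wf v w f).toAddMonoidHom key

include h1 h2 in
/-- The map of the completions. -/
theorem exists_compl_map : ∃ j : v.adicCompletion F →+* w.adicCompletion M,
    ∀ x : F, j (algebraMap F (v.adicCompletion F) x) = f x := by
  have hc := wf_cont v w f h1 h2
  refine ⟨(UniformSpace.Completion.extensionHom (wf v w f) hc).comp
    (HeightOneSpectrum.adicCompletion.equiv F v).toRingHom, fun x => ?_⟩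
  exact UniformSpace.Completion.extensionHom_coe (wf v w f) hc (WithVal.toVal _ x)

end compl

/-- elements integral over `A` have valuation at most one -/
theorem int_le {A M : Type*} [CommRing A] [Field M] [Algebra A M]
    (V : Valuation M (WithZero (Multiplicative ℤ))) (hA : ∀ a : A, V (algebraMap A M a) ≤ 1)
    (x : M) (hx : IsIntegral A x) : V x ≤ 1 := by
  obtain ⟨p, hp, hpx⟩ := hx
  let g : A →+* V.valuationSubring := (algebraMap A M).codRestrict V.valuationSubring.toSubring hA
  have h1 : IsIntegral V.valuationSubring x := by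
    refine ⟨p.map g, hp.map g, ?_⟩
    rw [eval₂_map]
    exact hpx
  obtain ⟨y, hy⟩ := IsIntegrallyClosed.isIntegral_iff.1 h1
  rw [← hy]
  exact y.2

theorem hom : S_HOM := by
  intro k K M R _ _ _ _ _ _ _ _ _ _ _ _ _ _ _ v ι
  set V : Valuation M (WithZero (Multiplicative ℤ)) :=
    (Valued.v (R := v.adicCompletion K)).comap ι.toRingHom with hV
  have hVx : ∀ x : M, V x = Valued.v (ι x) := fun x => rfl
  have hX : ∀ a : k[X], V (algebraMap k[X] M a) = v.valuation K (algebraMap k[X] K a) := by
    intro a
    rw [hVx, IsScalarTower.algebraMap_apply k[X] K M, AlgHom.commutes]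
    exact HeightOneSpectrum.valuedAdicCompletion_eq_valuation' v _
  have hR : ∀ r : R, V (algebraMap R M r) ≤ 1 := by
    intro r
    refine int_le (A := k[X]) V (fun a => ?_) _ ?_
    · rw [hX]
      exact v.valuation_le_one a
    · exact IsIntegralClosure.isIntegral_iff.2 ⟨r, rfl⟩
  let I : Ideal R :=
    { carrier := {r | V (algebraMap R M r) < 1}
      add_mem' := by
        intro a b ha hb
        show V (algebraMap R M (a + b)) < 1
        rw [map_add]
        exact V.map_add_lt ha hb
      zero_mem' := by
        show V (algebraMap R M 0) < 1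
        rw [map_zero, map_zero]
        exact zero_lt_one
      smul_mem' := by
        intro c a ha
        show V (algebraMap R M (c * a)) < 1
        rw [map_mul, map_mul]
        exact lt_of_le_of_lt (mul_le_mul' (hR c) le_rfl) (by rw [one_mul]; exact ha) }
  have hI : ∀ r : R, r ∈ I ↔ V (algebraMap R M r) < 1 := fun r => Iff.rfl
  have hprime : I.IsPrime := by
    refine ⟨?_, ?_⟩
    · rw [Ne, Ideal.eq_top_iff_one, hI, map_one, map_one]
      exact lt_irrefl _
    · intro a b hab
      rw [hI] at hab ⊢
      rw [hI]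
      by_contra hcon
      push Not at hcon
      rw [map_mul, map_mul, le_antisymm (hR a) hcon.1, le_antisymm (hR b) hcon.2, one_mul] at hab
      exact lt_irrefl _ hab
  have hbot : I ≠ ⊥ := by
    obtain ⟨p, hp, hp0⟩ := Submodule.exists_mem_ne_zero_of_ne_bot v.ne_bot
    intro hb
    have h1 : algebraMap k[X] R p ∈ I := by
      rw [hI, ← IsScalarTower.algebraMap_apply, hX]
      exact (v.valuation_lt_one_iff_mem p).2 hp
    rw [hb, Ideal.mem_bot] at h1
    have h2 : algebraMap k[X] M p = 0 := by
      rw [IsScalarTower.algebraMap_apply k[X] R M, h1, map_zero]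
    rw [IsScalarTower.algebraMap_apply k[X] K M] at h2
    exact hp0 (IsFractionRing.injective k[X] K (by
      rw [map_zero]
      exact (map_eq_zero _).1 h2))
  let w : HeightOneSpectrum R := ⟨I, hprime, hbot⟩
  have hw : ∀ r : R, r ∈ w.asIdeal ↔ V (algebraMap R M r) < 1 := fun r => Iff.rfl
  have key : ∀ x : M, w.valuation M x ≤ 1 → ∃ n : R, V x = V (algebraMap R M n) ∧
      w.valuation M x = w.valuation M (algebraMap R M n) := by
    intro x hx
    obtain ⟨n, ⟨d, hd⟩, hnd⟩ := HeightOneSpectrum.exists_primeCompl_mul_eq_of_integer w x hx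
    have h1 : V (algebraMap R M d) = 1 := by
      refine le_antisymm (hR d) ?_
      by_contra hcon
      exact hd ((hw d).2 (not_le.1 hcon))
    have h2 : w.valuation M (algebraMap R M d) = 1 := w.valuation_eq_one_iff_notMem.2 hd
    refine ⟨n, ?_, ?_⟩
    · rw [← hnd, map_mul, h1, mul_one]
    · rw [← hnd, map_mul, h2, mul_one]
  obtain ⟨φ, hφ⟩ := exists_compl_map w v ι.toRingHom
    (fun x hx => by
      obtain ⟨n, hn, -⟩ := key x hx
      show V x ≤ 1
      rw [hn]
      exact hR n)
    (fun x hx => by
      obtain ⟨n, hn, hn'⟩ := key x hx.le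
      show V x < 1
      rw [hn]
      rw [hn'] at hx
      exact (hw n).1 ((w.valuation_lt_one_iff_mem n).1 hx))
  exact ⟨w, φ, hφ⟩

end Pool.Agent.H467.UM.Hom
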