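import Pool.Agent.H467.UM.Core
import Pool.Agent.H467.UM.Hom
import Pool.Agent.H467.UM.Galm
import Pool.Agent.H467.MR.Clo
import Pool.Agent.H467.MR.One
import Pool.Graph.R_pool_sql_team_seeded_63374d34.N874.JM.Fld
import Pool.Graph.R_pool_sql_team_seeded_63374d34.N874.PP.Sel2
import Pool.Graph.R_pool_sql_team_seeded_63374d34.N803.PM.FinM

/-!
# The points and the Tate-Shafarevich group over the extension

Project UM (helper467).
-/

set_option autoImplicit false
set_option linter.all false

open Polynomial IsDedekindDomain WeierstrassCurve WeierstrassCurve.Affine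
open Pool.Agent.N874.PP Pool.Agent.N765.PP Pool.Agent.H467.MR Pool.Agent.TH115.GD
open scoped Classical IntermediateField

namespace Pool.Agent.H467.UM

/-- The completions of `M`: at the maximal ideals of `R`, and, for every embedding of `M` in the
completion of `K` at infinity, this completion. -/
inductive PlM (k K M R : Type) [Field k] [Field K] [Algebra k[X] K] [IsFractionRing k[X] K]
    [Field M] [Algebra K M] [CommRing R] [IsDedekindDomain R] [Algebra R M] [IsFractionRing R M] :
    ∀ (E : Type) [Field E] [Algebra M E], Prop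
  | fin (w : HeightOneSpectrum R) : PlM k K M R (w.adicCompletion M)
  | inf (ι : M →ₐ[K] CompInf k K) :
      @PlM k K M R _ _ _ _ _ _ _ _ _ _ (CompInf k K) _ (ι : M →+* CompInf k K).toAlgebra

/-- The conclusion over `M`. -/
def GoodM (k K M R : Type) [Field k] [Field K] [Algebra k[X] K] [IsFractionRing k[X] K]
    [Field M] [Algebra K M] [CommRing R] [IsDedekindDomain R] [Algebra R M] [IsFractionRing R M]
    (W : WeierstrassCurve M) : Prop :=
  Finite (Pt W M) ∧ Odd (Nat.card (Pt W M)) ∧
  ∀ f : (Sep M ≃ₐ[M] Sep M) → Pt W (Sep M), IsCoc W f →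
    (∀ (E : Type) [Field E] [Algebra M E], PlM k K M R E → LocTriv W E (Sep E) f) →
    (∃ (n : ℕ) (Q : Pt W (Sep M)), ∀ σ, 2 ^ n • f σ = act W (rs M σ) Q - Q) →
    ∃ Q : Pt W (Sep M), ∀ σ, f σ = act W (rs M σ) Q - Q

theorem fld {k : Type} [Field k] [Finite k] (K : Type) [Field K]
    [Algebra k[X] K] [IsFractionRing k[X] K] (h6 : (6 : k) ≠ 0) {a b D : k[X]} {J : Finset k[X]}
    [hfact : Fact (Irreducible (FF K a b))] (O : Type) [CommRing O] [IsDedekindDomain O]
    [Algebra O (AdjoinRoot (FF K a b))] [IsFractionRing O (AdjoinRoot (FF K a b))] [Algebra k[X] O]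
    [IsScalarTower k[X] O (AdjoinRoot (FF K a b))]
    [IsIntegralClosure O k[X] (AdjoinRoot (FF K a b))] (hD : D ≠ 0) (hΔ : dsc a b ≠ 0)
    (hsel : SelD (K := K) O J a b D (AdjoinRoot.root (FF K a b)))
    (M : Type) [Field M] [Algebra K M] [Algebra k[X] M] [IsScalarTower k[X] K M]
    [FiniteDimensional K M] [IsGalois K M] (R : Type) [CommRing R] [IsDedekindDomain R]
    [Algebra R M] [IsFractionRing R M] [Algebra k[X] R] [IsScalarTower k[X] R M]
    [IsIntegralClosure R k[X] M] {n : ℕ} (hM : Module.finrank K M = 2 ^ n)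
    (hE : Ext k K M R J a b D) :
    GoodM k K M R (sW (algebraMap k[X] M (a * D ^ 2)) (algebraMap k[X] M (b * D ^ 3))) := by
  have h6K : (6 : K) ≠ 0 := sixE (algebraMap K K) h6
  have h6M : (6 : M) ≠ 0 := sixE (algebraMap M M) h6
  have hinjK : Function.Injective (algebraMap k[X] K) := IsFractionRing.injective k[X] K
  have hinjM : Function.Injective (algebraMap k[X] M) := inj_of_tower (K := K)
  have hc : IsCub K a b (AdjoinRoot.root (FF K a b)) := isCub_adjoinRoot (K := K) a b
  haveI : FiniteDimensional K (AdjoinRoot (FF K a b)) := (FF_monic (K := K) a b).finite_adjoinRoot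
  haveI : Algebra.IsSeparable K (AdjoinRoot (FF K a b)) := sep_adjoinRoot h6K a b
  have hmK : (FF K a b).Monic := FF_monic a b
  have hdK : (FF K a b).natDegree = 3 := FF_deg a b
  have hmM : (FF M a b).Monic := by
    unfold FF
    monicity!
  have hdM : (FF M a b).natDegree = 3 := by
    unfold FF
    compute_degree!
  have hFmap : FF M a b = (FF K a b).map (algebraMap K M) := by
    unfold FF
    simp only [Polynomial.map_add, Polynomial.map_mul, Polynomial.map_pow, map_X, map_C,
      ← IsScalarTower.algebraMap_apply k[X] K M]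
  have hirrM : Irreducible (FF M a b) := by
    rw [hFmap]
    exact Pool.Agent.N874.JM.irr_up hM hfact.out hmK (by rw [hdK]; decide)
  obtain ⟨Ω, instF, instA, t, ht, hrk, htop, hfin, hmin⟩ :=
    Pool.Agent.N874.JM.exists_field hirrM hmM
  rw [hdM] at hrk
  letI : Algebra K Ω := ((algebraMap M Ω).comp (algebraMap K M)).toAlgebra
  haveI : IsScalarTower K M Ω := IsScalarTower.of_algebraMap_eq fun x => rfl
  letI : Algebra k[X] Ω := ((algebraMap M Ω).comp (algebraMap k[X] M)).toAlgebra
  haveI : IsScalarTower k[X] M Ω := IsScalarTower.of_algebraMap_eq fun x => rfl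
  haveI : IsScalarTower k[X] K Ω := IsScalarTower.of_algebraMap_eq fun x => by
    rw [IsScalarTower.algebraMap_apply k[X] M Ω, IsScalarTower.algebraMap_apply k[X] K M,
      ← IsScalarTower.algebraMap_apply K M Ω]
  have ht' : (FF K a b).eval₂ (algebraMap K Ω) t = 0 := by
    rw [hFmap, aeval_def, eval₂_map] at ht
    exact ht
  letI : Algebra (AdjoinRoot (FF K a b)) Ω := (AdjoinRoot.lift (algebraMap K Ω) t ht').toAlgebra
  have hL : ∀ x : AdjoinRoot (FF K a b), algebraMap (AdjoinRoot (FF K a b)) Ω x =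
      AdjoinRoot.lift (algebraMap K Ω) t ht' x := fun x => rfl
  haveI : IsScalarTower K (AdjoinRoot (FF K a b)) Ω := by
    refine IsScalarTower.of_algebraMap_eq fun x => ?_
    rw [hL, AdjoinRoot.algebraMap_eq, AdjoinRoot.lift_of]
  haveI : IsScalarTower k[X] (AdjoinRoot (FF K a b)) Ω := by
    refine IsScalarTower.of_algebraMap_eq fun x => ?_
    rw [IsScalarTower.algebraMap_apply k[X] K (AdjoinRoot (FF K a b)),
      ← IsScalarTower.algebraMap_apply K (AdjoinRoot (FF K a b)) Ω,
      IsScalarTower.algebraMap_apply k[X] M Ω, IsScalarTower.algebraMap_apply k[X] K M,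
      ← IsScalarTower.algebraMap_apply K M Ω]
  haveI : FiniteDimensional K Ω := FiniteDimensional.trans K M Ω
  haveI hsM : Algebra.IsSeparable M Ω := by
    have hs : (FF M a b).Separable := by
      rw [hFmap]
      refine Separable.map ?_
      rw [separable_iff_derivative_ne_zero hfact.out]
      intro h0
      have h1 : (derivative (FF K a b)).coeff 2 = 3 := by
        rw [coeff_derivative]
        simp [FF, coeff_X, coeff_C]
        norm_num
      rw [h0, coeff_zero] at h1
      apply h6K
      have : (6 : K) = 2 * 3 := by norm_num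
      rw [this, ← h1, mul_zero]
    have hsep' : IsSeparable M t := by
      unfold IsSeparable
      rw [hmin]
      exact hs
    haveI := (IntermediateField.isSeparable_adjoin_simple_iff_isSeparable M Ω).2 hsep'
    rw [htop] at this
    exact AlgEquiv.Algebra.isSeparable (IntermediateField.topEquiv (F := M) (E := Ω))
  haveI : Algebra.IsSeparable K Ω := Algebra.IsSeparable.trans K M Ω
  have hroot : algebraMap (AdjoinRoot (FF K a b)) Ω (AdjoinRoot.root (FF K a b)) = t := by
    rw [hL, AdjoinRoot.lift_root]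
  haveI : FiniteDimensional (AdjoinRoot (FF K a b)) Ω :=
    FiniteDimensional.right K (AdjoinRoot (FF K a b)) Ω
  haveI : Algebra.IsSeparable (AdjoinRoot (FF K a b)) Ω :=
    Algebra.isSeparable_tower_top_of_isSeparable K (AdjoinRoot (FF K a b)) Ω
  -- the ring of integers of `Ω`
  haveI : IsDedekindDomain (integralClosure k[X] Ω) := integralClosure.isDedekindDomain k[X] K Ω
  haveI : IsFractionRing (integralClosure k[X] Ω) Ω :=
    integralClosure.isFractionRing_of_finite_extension K Ω
  have hDM : algebraMap k[X] M D ≠ 0 := by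
    rwa [Ne, map_eq_zero_iff _ hinjM]
  set Θ : Ω := algebraMap k[X] Ω D * algebraMap (AdjoinRoot (FF K a b)) Ω
    (AdjoinRoot.root (FF K a b)) with hΘ
  have htr : t ^ 3 + algebraMap k[X] Ω a * t + algebraMap k[X] Ω b = 0 := by
    unfold FF at ht
    simp only [map_add, map_mul, map_pow, aeval_X, aeval_C,
      ← IsScalarTower.algebraMap_apply k[X] M Ω] at ht
    exact ht
  have hgent : ∀ x : Ω, ∃ r s u : M, x = algebraMap M Ω r + algebraMap M Ω s * t +
      algebraMap M Ω u * t ^ 2 := by
    have hint : IsIntegral M t := ⟨FF M a b, hmM, by rw [← aeval_def]; exact ht⟩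
    intro x
    have hx : x ∈ Algebra.adjoin M {t} := by
      have h2 := IntermediateField.adjoin_simple_toSubalgebra_of_isAlgebraic hint.isAlgebraic
      rw [← h2, htop]
      trivial
    rw [Algebra.adjoin_singleton_eq_range_aeval] at hx
    obtain ⟨p, hp⟩ := hx
    have hdeg : (p %ₘ FF M a b).natDegree < 3 := by
      rw [← hdM]
      exact natDegree_modByMonic_lt p hmM (fun h => by rw [h] at hdM; simp at hdM)
    refine ⟨(p %ₘ FF M a b).coeff 0, (p %ₘ FF M a b).coeff 1, (p %ₘ FF M a b).coeff 2, ?_⟩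
    have h3 : aeval t p = aeval t (p %ₘ FF M a b) := by
      conv_lhs => rw [← modByMonic_add_div p (FF M a b)]
      rw [map_add, map_mul, ht, zero_mul, add_zero]
    rw [← hp]
    show aeval t p = _
    rw [h3, aeval_eq_sum_range' hdeg]
    simp [Finset.sum_range_succ, Algebra.smul_def]
  have hC : IsCub M (a * D ^ 2) (b * D ^ 3) Θ := by
    refine ⟨?_, hrk, ?_⟩
    · rw [hΘ, hroot]
      simp only [map_mul, map_pow]
      linear_combination (algebraMap k[X] Ω D) ^ 3 * htr
    · intro x
      obtain ⟨r, s, u, hx⟩ := hgent x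
      refine ⟨r, s / algebraMap k[X] M D, u / (algebraMap k[X] M D) ^ 2, ?_⟩
      have hDΩ : algebraMap k[X] Ω D ≠ 0 := by
        rw [IsScalarTower.algebraMap_apply k[X] M Ω]
        exact (_root_.map_ne_zero _).2 hDM
      rw [hx, hΘ, hroot, map_div₀, map_div₀, map_pow, ← IsScalarTower.algebraMap_apply k[X] M Ω]
      field_simp
  have hΔ2 : 4 * (a * D ^ 2) ^ 3 + 27 * (b * D ^ 3) ^ 2 ≠ 0 := by
    have e : 4 * (a * D ^ 2) ^ 3 + 27 * (b * D ^ 3) ^ 2 = D ^ 6 * dsc a b := by
      simp only [dsc]
      ring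
    rw [e]
    exact mul_ne_zero (pow_ne_zero _ hD) hΔ
  have hirrD : Irreducible (X ^ 3 + C (algebraMap k[X] M (a * D ^ 2)) * X +
      C (algebraMap k[X] M (b * D ^ 3)) : M[X]) := by
    have h1 := Pool.Agent.N874.JM.irr_up hM (irr_twist (K := K) (D := D) hfact.out hD)
      (by monicity!) (by
        rw [fpol_deg]
        decide)
    simpa only [Polynomial.map_add, Polynomial.map_mul, Polynomial.map_pow, map_X, map_C,
      ← IsScalarTower.algebraMap_apply k[X] K M] using h1
  have hDisc : 4 * (algebraMap k[X] M (a * D ^ 2)) ^ 3 + 27 * (algebraMap k[X] M (b * D ^ 3)) ^ 2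
      ≠ 0 := discE (RingHom.id M) hinjM hΔ2
  have hRt : Rt (algebraMap k[X] M (a * D ^ 2)) (algebraMap k[X] M (b * D ^ 3)) Θ := by
    unfold Rt
    rw [← IsScalarTower.algebraMap_apply k[X] M Ω, ← IsScalarTower.algebraMap_apply k[X] M Ω]
    exact hC.root
  obtain ⟨hdiv, -, hsha⟩ := Pool.Agent.H467.UM.Galm.galm M Ω (algebraMap k[X] M (a * D ^ 2))
    (algebraMap k[X] M (b * D ^ 3)) Θ (PlM k K M R) h6M hDisc hirrD hRt hrk
    (fun h hne hN hloc => up O (integralClosure k[X] Ω) R Hom.hom Clo.clo h6 hD hc hC hΔ2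
      (by rw [hroot]; exact htop) hsel hE hM hne hN
      (fun w => hloc (w.adicCompletion M) (PlM.fin w))
      (fun ι => @hloc (CompInf k K) _ (ι : M →+* CompInf k K).toAlgebra (PlM.inf ι)))
  have hfinite : Finite (Pt (sW (algebraMap k[X] M (a * D ^ 2))
      (algebraMap k[X] M (b * D ^ 3))) M) := by
    have h4 := Pool.Agent.N803.PM.finm k K M (algebraMap k[X] K (a * D ^ 2))
      (algebraMap k[X] K (b * D ^ 3)) h6 (discE (RingHom.id K) hinjK hΔ2)
    rw [← IsScalarTower.algebraMap_apply k[X] K M, ← IsScalarTower.algebraMap_apply k[X] K M] at h4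
    exact h4 hdiv
  haveI := hfinite
  exact ⟨hfinite, Pool.Agent.H467.MR.Gali.odd_card hdiv, hsha⟩

end Pool.Agent.H467.UM
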