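import Pool.Agent.H467.UM.Fld
import Pool.Agent.H467.MR.Chs

/-!
# One curve

Project UM (helper467), after project MR.
-/

set_option autoImplicit false
set_option linter.all false

open Polynomial IsDedekindDomain WithZero
open Pool.Agent.N874.PP Pool.Agent.N352.PP Pool.Agent.N765.PP Pool.Agent.TH115.GD
open Pool.Agent.H467.MR
open scoped Classical

namespace Pool.Agent.H467.UM

/-- The conclusion for one curve and one twist, over all the extensions. -/
def UpTw {k : Type} [Field k] (K : Type) [Field K] [Algebra k[X] K] [IsFractionRing k[X] K]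
    (J : Finset k[X]) (a b D : k[X]) : Prop :=
  ∀ (M : Type) [Field M] [Algebra K M] [Algebra k[X] M] [IsScalarTower k[X] K M]
    [FiniteDimensional K M] [IsGalois K M] (R : Type) [CommRing R] [IsDedekindDomain R]
    [Algebra R M] [IsFractionRing R M] [Algebra k[X] R] [IsScalarTower k[X] R M]
    [IsIntegralClosure R k[X] M] (n : ℕ), Module.finrank K M = 2 ^ n →
    Ext k K M R J a b D →
    GoodM k K M R (sW (algebraMap k[X] M (a * D ^ 2)) (algebraMap k[X] M (b * D ^ 3)))

theorem one2 (hFINT : S_FINT) (hSTQ : S_STQ) (hCLO : S_CLO) (hLIN : S_LIN)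
    (hUNI : S_UNI) (hEVI : S_EVI) (hDI : S_DIAGI) (hHP : S_HP) (hT : S_TAME)
    {k : Type} [Field k] [Finite k] (K : Type) [Field K] [Algebra k[X] K] [IsFractionRing k[X] K]
    {m : ℕ} {a b P : Fin m → k[X]} (h6 : (6 : k) ≠ 0) (hdat : Dat K a b P) (i : Fin m) :
    ∃ S J : Finset k[X], J ⊆ S ∧
      (∀ Q ∈ S, Q.Monic ∧ Irreducible Q ∧ (∃ c : k[X], Q ∣ c ^ 3 + a i * c + b i) ∧
        ¬ Q ∣ dsc (a i) (b i) ∧ ∀ j, j ≠ i → ∀ c : k[X], ¬ Q ∣ c ^ 3 + a j * c + b j) ∧
      ∀ D : k[X], D.Monic → Squarefree D → Even D.natDegree →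
        (∀ Q : k[X], Q.Monic → Irreducible Q → Q ∣ D →
          Q ∈ S ∨ ∀ c : k[X], ¬ Q ∣ c ^ 3 + a i * c + b i) →
        (∀ Q ∈ S, (Q ∣ D ↔ Q ∈ J)) →
        (∀ Q : k[X], Q.Monic → Irreducible Q → Q ∣ dsc (a i) (b i) → Q ≠ P i →
          ∃ z : k[X], Q ∣ z ^ 2 - D) →
        UpTw K J (a i) (b i) D := by
  haveI hfact : Fact (Irreducible (FF K (a i) (b i))) := ⟨hdat.irr i⟩
  have hc := isCub_adjoinRoot (K := K) (a i) (b i)
  have h6K : (6 : K) ≠ 0 := by
    have : (6 : K) = algebraMap k[X] K (C 6) := by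
      rw [show (C (6 : k) : k[X]) = 6 from rfl, map_ofNat]
    rw [this, Ne, IsFractionRing.to_map_eq_zero_iff, C_eq_zero]
    exact h6
  haveI : FiniteDimensional K (AdjoinRoot (FF K (a i) (b i))) :=
    (FF_monic (K := K) (a i) (b i)).finite_adjoinRoot
  haveI : Algebra.IsSeparable K (AdjoinRoot (FF K (a i) (b i))) := sep_adjoinRoot h6K (a i) (b i)
  haveI : IsDedekindDomain (integralClosure k[X] (AdjoinRoot (FF K (a i) (b i)))) :=
    integralClosure.isDedekindDomain k[X] K (AdjoinRoot (FF K (a i) (b i)))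
  haveI : IsFractionRing (integralClosure k[X] (AdjoinRoot (FF K (a i) (b i))))
      (AdjoinRoot (FF K (a i) (b i))) :=
    integralClosure.isFractionRing_of_finite_extension K (AdjoinRoot (FF K (a i) (b i)))
  haveI : Module.Finite k[X] (integralClosure k[X] (AdjoinRoot (FF K (a i) (b i)))) :=
    IsIntegralClosure.finite k[X] K (AdjoinRoot (FF K (a i) (b i))) _
  have hinjL : Function.Injective (algebraMap k[X] (AdjoinRoot (FF K (a i) (b i)))) := by
    rw [IsScalarTower.algebraMap_eq k[X] K (AdjoinRoot (FF K (a i) (b i)))]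
    exact (algebraMap K _).injective.comp (IsFractionRing.injective k[X] K)
  haveI : Module.IsTorsionFree k[X] (integralClosure k[X] (AdjoinRoot (FF K (a i) (b i)))) := by
    have : Module.IsTorsionFree k[X] (AdjoinRoot (FF K (a i) (b i))) := by
      have := Module.IsTorsionFree.of_smul_eq_zero (R := k[X])
        (M := AdjoinRoot (FF K (a i) (b i))) (fun r x hrx => by
          rw [Algebra.smul_def] at hrx
          rcases mul_eq_zero.1 hrx with h1 | h1
          · left
            exact hinjL (by rw [h1, map_zero])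
          · right
            exact h1)
      exact this
    infer_instance
  have hΔ := hdat.dsc_ne i
  obtain ⟨S, R, hS, hsep⟩ := exists_S hFINT hSTQ h6 hdat i hc
    (integralClosure k[X] (AdjoinRoot (FF K (a i) (b i)))) hΔ
  obtain ⟨J, hJ, hcore⟩ := sel_core2 (integralClosure k[X] (AdjoinRoot (FF K (a i) (b i)))) hCLO hLIN
    hUNI hEVI hDI hHP hT h6 hc hΔ (hdat.mt i) S R (fun Q hQ => (hS Q hQ).1) hsep
  refine ⟨S, J, hJ, fun Q hQ => ⟨(hS Q hQ).1.1, (hS Q hQ).1.2.irr, ⟨R Q, (hS Q hQ).1.2.root⟩,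
    (hS Q hQ).1.2.dsc, (hS Q hQ).2⟩, ?_⟩
  intro D hDm hDsq hDe hDP hDJ hDbad
  have hD0 : D ≠ 0 := hDm.ne_zero
  intro M _ _ _ _ _ _ R _ _ _ _ _ _ _ n hn hE
  exact fld K h6 (integralClosure k[X] (AdjoinRoot (FF K (a i) (b i)))) hD0 hΔ
    (hcore D hDm hDsq hDe hDP hDJ hDbad) M R hn hE

end Pool.Agent.H467.UM
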