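import Pool.Agent.H467.UM.Cw
import Pool.Graph.R_pool_sql_team_seeded_63374d34.N874.TW.Cnd
import Pool.Graph.R_pool_sql_team_seeded_63374d34.N874.PM.Big3

/-!
# Preparations for the descent along 2-extensions

Project UM (helper467).
-/

set_option autoImplicit false
set_option linter.all false

open Polynomial IsDedekindDomain
open Pool.Agent.N874.PP Pool.Agent.N765.PP Pool.Agent.H467.MR
open Pool.Agent.N874.PM (ov_val val_le val_eq_of ov_down ev_down ev_sq ev_mul)
open scoped Classical IntermediateField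

namespace Pool.Agent.H467.UM

section one

variable {k F O : Type} [Field k] [Field F] [Algebra k[X] F] [CommRing O] [IsDedekindDomain O]
  [Algebra O F] [IsFractionRing O F] [Algebra k[X] O] [IsScalarTower k[X] O F] {a b : k[X]} {θ : F}

theorem not_ov {P c : k[X]} (hP : Irreducible P) {𝔓 : HeightOneSpectrum O} (h : Ov P 𝔓)
    (hc : ¬ P ∣ c) : ¬ Ov c 𝔓 := by
  intro h1
  obtain ⟨u, w, huw⟩ := (hP.coprime_iff_not_dvd).2 hc
  apply 𝔓.isPrime.ne_top
  rw [Ideal.eq_top_iff_one, ← map_one (algebraMap k[X] O), ← huw, map_add, map_mul, map_mul]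
  exact Ideal.add_mem _ (Ideal.mul_mem_left _ _ h) (Ideal.mul_mem_left _ _ h1)

theorem val_theta [IsIntegralClosure O k[X] F] (hr : θ ^ 3 + algebraMap k[X] F a * θ +
    algebraMap k[X] F b = 0) (𝔓 : HeightOneSpectrum O) : 𝔓.valuation F θ ≤ 1 := by
  refine Pool.Agent.N704.PP.val_int (k := k) 𝔓 ⟨X ^ 3 + C a * X + C b, by monicity!, ?_⟩
  simp only [eval₂_add, eval₂_mul, eval₂_X_pow, eval₂_C, eval₂_X]
  exact hr

/-- `f'(θ)` is a unit at the primes over `P` if `P` does not divide the discriminant. -/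
theorem der_unit [IsIntegralClosure O k[X] F] (hr : θ ^ 3 + algebraMap k[X] F a * θ +
    algebraMap k[X] F b = 0) {P : k[X]} (hP : Irreducible P) (hd : ¬ P ∣ dsc a b)
    {𝔓 : HeightOneSpectrum O} (h : Ov P 𝔓) :
    𝔓.valuation F (3 * θ ^ 2 + algebraMap k[X] F a) = 1 := by
  have hθ := val_theta (O := O) hr 𝔓
  have h1 : 𝔓.valuation F (algebraMap k[X] F (dsc a b)) = 1 := val_eq_of _ 𝔓 (not_ov hP h hd)
  have e : algebraMap k[X] F (dsc a b) = (3 * θ ^ 2 + algebraMap k[X] F a) *
      (algebraMap k[X] F (6 * a) * θ ^ 2 - algebraMap k[X] F (9 * b) * θ +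
        algebraMap k[X] F (4 * a ^ 2)) := by
    simp only [dsc, map_add, map_mul, map_pow, map_ofNat]
    linear_combination (-(18 * algebraMap k[X] F a * θ - 27 * algebraMap k[X] F b)) * hr
  have v3 : 𝔓.valuation F (3 * θ ^ 2 + algebraMap k[X] F a) ≤ 1 := by
    refine (Valuation.map_add _ _ _).trans (max_le ?_ (val_le _ 𝔓))
    rw [map_mul, map_pow]
    have : (3 : F) = algebraMap k[X] F 3 := by rw [map_ofNat]
    rw [this]
    exact mul_le_one' (val_le _ 𝔓) (pow_le_one' hθ 2)
  have v4 : 𝔓.valuation F (algebraMap k[X] F (6 * a) * θ ^ 2 - algebraMap k[X] F (9 * b) * θ +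
        algebraMap k[X] F (4 * a ^ 2)) ≤ 1 := by
    refine (Valuation.map_add _ _ _).trans (max_le ?_ (val_le _ 𝔓))
    refine (Valuation.map_sub _ _ _).trans (max_le ?_ ?_)
    · rw [map_mul, map_pow]
      exact mul_le_one' (val_le _ 𝔓) (pow_le_one' hθ 2)
    · rw [map_mul]
      exact mul_le_one' (val_le _ 𝔓) hθ
  rw [e, map_mul] at h1
  refine le_antisymm v3 ?_
  rw [← h1]
  exact mul_le_of_le_one_right' v4

end one

section pol

variable {R : Type} [CommRing R]

theorem fpol_deg [Nontrivial R] (a b : R) : (X ^ 3 + C a * X + C b : R[X]).natDegree = 3 := by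
  compute_degree!

theorem fpol_scale [Nontrivial R] (a b D : R) :
    (X ^ 3 + C a * X + C b : R[X]).scaleRoots D = X ^ 3 + C (a * D ^ 2) * X + C (b * D ^ 3) := by
  ext i
  rw [coeff_scaleRoots, fpol_deg]
  rcases Nat.lt_or_ge i 4 with hi | hi
  · interval_cases i <;> simp [coeff_X, coeff_C, coeff_X_pow, ← C_pow, -map_pow]
  · have h1 : (X ^ 3 + C a * X + C b : R[X]).coeff i = 0 :=
      coeff_eq_zero_of_natDegree_lt (by rw [fpol_deg]; omega)
    have h2 : (X ^ 3 + C (a * D ^ 2) * X + C (b * D ^ 3) : R[X]).coeff i = 0 :=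
      coeff_eq_zero_of_natDegree_lt (by rw [fpol_deg]; omega)
    rw [h1, h2, zero_mul]

theorem fpol_der (a b : R) : derivative (X ^ 3 + C a * X + C b : R[X]) = C 3 * X ^ 2 + C a := by
  simp only [derivative_add, derivative_mul, derivative_X_pow, derivative_C, derivative_X]
  simp

end pol

section gen

variable {k K L : Type} [Field k] [Field K] [Field L] [Algebra K L] [Algebra k[X] L] {a b : k[X]}
  {θ : L}

/-- The cubic extension in the notation of the library. -/
theorem isGen_of (h : IsCub K a b θ) :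
    Pool.Agent.N352.PJ.IsGen 1 K (X ^ 3 + C a * X + C b : k[X][X]) θ where
  mon := by monicity!
  deg := fpol_deg a b
  root := by
    simp only [eval₂_add, eval₂_mul, eval₂_X_pow, eval₂_C, eval₂_X]
    exact h.root
  rank := h.rank
  gen := by
    intro x
    obtain ⟨r, s, t, hx⟩ := h.gen x
    refine ⟨![r, s, t], ?_⟩
    rw [hx, Fin.sum_univ_three]
    simp

end gen

end Pool.Agent.H467.UM
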