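import Pool.Agent.H467.UM.One
import Pool.Agent.H467.MR.Sim

/-!
# Twists with trivial Selmer groups over all the extensions in a class

Project UM (helper467), after project MR.
-/

set_option autoImplicit false
set_option linter.all false

open Polynomial IsDedekindDomain WithZero UniqueFactorizationMonoid
open Pool.Agent.N874.PP Pool.Agent.TH115.GD Pool.Agent.H467.MR
open scoped Classical

namespace Pool.Agent.H467.UM

/-- The twists `D` for which all the curves have finitely many rational points, of odd number, and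
trivial 2-primary part of the Tate-Shafarevich group, over all the extensions. -/
theorem sim2 {k : Type} [Field k] [Finite k] (K : Type) [Field K] [Algebra k[X] K]
    [IsFractionRing k[X] K] {m : ℕ} {a b P₀ : Fin m → k[X]} (h6 : (6 : k) ≠ 0)
    (hdat₀ : Dat K a b P₀) :
    ∃ J : Fin m → Finset k[X], (∀ i, ∀ Q ∈ J i, Q.Monic ∧ Irreducible Q ∧
      (∃ c : k[X], Q ∣ c ^ 3 + a i * c + b i) ∧ ¬ Q ∣ dsc (a i) (b i)) ∧
    ∃ c : ℝ, 0 < c ∧ ∃ n₀ : ℕ, ∀ n : ℕ, n₀ ≤ n →
      {D : k[X] | D.Monic ∧ D.natDegree ≤ n ∧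
        (Squarefree D ∧ ∀ i, UpTw K (J i) (a i) (b i) D)}.Finite ∧
      c * (n : ℝ) ^ (((1 : ℝ) / 3) ^ m) ≤
        ∑ᶠ D ∈ {D : k[X] | D.Monic ∧ D.natDegree ≤ n ∧
          (Squarefree D ∧ ∀ i, UpTw K (J i) (a i) (b i) D)}, ((Nat.card k : ℝ) ^ D.natDegree)⁻¹ := by
  have h2 : (2 : k) ≠ 0 := by
    intro h0; apply h6
    have : (6 : k) = 2 * 3 := by norm_num
    rw [this, h0, zero_mul]
  have hCHEB : S_CHEB := Cheb.cheb Zeta.zeta
  have hGRP : S_GRP := Grp.grp
  have hGEN : S_GEN := Gen.gen hCHEB hGRP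
  have hSTQ : S_STQ := Stq.stq hCHEB hGRP
  have hdat := hdat₀.normal
  set P : Fin m → k[X] := fun i => normalize (P₀ i) with hPdef
  have hPm : ∀ i, (P i).Monic := fun i => monic_normalize (hdat₀.prm i).ne_zero
  have hone := fun i => one2 Fint.fint hSTQ Clo.clo Pool.Agent.N498.PP.lin uni Evi.evi Diagi.diagi
    Pool.Agent.N368.PP.hp Pool.Agent.N352.PP.tame K h6 hdat i
  choose S J hJS hS hgood using hone
  refine ⟨J, fun i Q hQ => ?_, ?_⟩
  · have h1 := hS i Q (hJS i hQ)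
    exact ⟨h1.1, h1.2.1, h1.2.2.1, h1.2.2.2.1⟩
  -- the set `JJ`
  let JJ : Finset (Pr k) := toPr (Finset.univ.biUnion J)
  have hJJ : ∀ Q : Pr k, Q ∈ JJ ↔ ∃ i, Q.1 ∈ J i := by
    intro Q
    rw [mem_toPr, Finset.mem_biUnion]
    simp
  have hJin : ∀ Q ∈ JJ, Q ∉ InS a b := by
    intro Q hQ hin
    obtain ⟨i, hi⟩ := (hJJ Q).1 hQ
    obtain ⟨c, hc⟩ := (hS i Q.1 (hJS i hi)).2.2.1
    exact hin i c hc
  -- the bad primes
  have hprod : (∏ i, dsc (a i) (b i)) ≠ 0 := Finset.prod_ne_zero_iff.2 fun i _ => hdat.dsc_ne i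
  let Bs : Finset k[X] := (normalizedFactors (∏ i, dsc (a i) (b i))).toFinset.filter
    fun Q => ∀ j, Q ≠ P j
  have hBs : ∀ Q : k[X], Q ∈ Bs ↔ (Q.Monic ∧ Irreducible Q ∧ (∃ i, Q ∣ dsc (a i) (b i)) ∧
      ∀ j, Q ≠ P j) := by
    intro Q
    simp only [Bs, Finset.mem_filter, Multiset.mem_toFinset]
    constructor
    · rintro ⟨h1, h3⟩
      have hirr := irreducible_of_normalized_factor Q h1
      have hn := normalize_normalized_factor Q h1
      have hm : Q.Monic := by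
        rw [← hn]; exact monic_normalize hirr.ne_zero
      have hd := dvd_of_mem_normalizedFactors h1
      obtain ⟨i, -, hi⟩ := (hirr.prime.dvd_finset_prod_iff _).1 hd
      exact ⟨hm, hirr, ⟨i, hi⟩, h3⟩
    · rintro ⟨hm, hirr, ⟨i, hi⟩, h3⟩
      refine ⟨?_, h3⟩
      rw [mem_normalizedFactors_iff' hprod]
      exact ⟨hirr, hm.normalize_eq_self, hi.trans (Finset.dvd_prod_of_mem _ (Finset.mem_univ i))⟩
  let r := Bs.card
  let Bf : Fin r → k[X] := fun j => (Bs.equivFin.symm j : k[X])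
  have hBf : ∀ j, Bf j ∈ Bs := fun j => (Bs.equivFin.symm j).2
  have hBinj : Function.Injective Bf := fun i j hij => Bs.equivFin.symm.injective (Subtype.ext hij)
  have hBsur : ∀ Q ∈ Bs, ∃ j, Bf j = Q := fun Q hQ => ⟨Bs.equivFin ⟨Q, hQ⟩, by simp [Bf]⟩
  obtain ⟨hLog, hgen⟩ := hGEN k K m a b P h6 hdat
  have hgen' := hgen r Bf (fun j => ⟨((hBs _).1 (hBf j)).1, ((hBs _).1 (hBf j)).2.1⟩) hBinj (by
    intro i j hd
    have h1 := (hBs _).1 (hBf j)
    exact h1.2.2.2 i (eq_of_monic_of_associated h1.1 (hPm i)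
      ((hdat.prm i).associated_of_dvd h1.2.1 hd).symm))
  set g₀ : Fin (r + 1) → ZMod 2 := ∑ Q ∈ JJ, chi Bf Q with hg₀
  have hδ : (0 : ℝ) < ((1 : ℝ) / 3) ^ m := by positivity
  obtain ⟨c, hc, n₀, hcnt⟩ := Cnt.cnt k (InS a b) _ hδ hLog (r + 1) (chi Bf) g₀ (hgen' g₀)
  have hD₀m : (∏ Q ∈ JJ, Q.1).Monic := monic_prod_of_monic _ _ fun Q _ => Q.2.1
  refine Asm.asm k (InS a b) (∏ Q ∈ JJ, Q.1)
    (fun D => Squarefree D ∧ ∀ i, UpTw K (J i) (a i) (b i) D)
    (fun A => ∑ Q ∈ A, chi Bf Q = g₀) _ c n₀ hδ hc hD₀m hcnt ?_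
  · intro A hA hχ
    have hdisj : Disjoint JJ A := by
      rw [Finset.disjoint_left]
      intro Q hQ hQA
      exact hJin Q hQ (hA Q hQA)
    have hU : (∏ Q ∈ JJ, Q.1) * ∏ Q ∈ A, Q.1 = ∏ Q ∈ JJ ∪ A, Q.1 :=
      (Finset.prod_union hdisj).symm
    have hχU : ∑ Q ∈ JJ ∪ A, chi Bf Q = 0 := by
      rw [Finset.sum_union hdisj, hχ, ← hg₀]
      funext j
      exact CharTwo.add_self_eq_zero _
    rw [hU]
    have hDm : (∏ Q ∈ JJ ∪ A, Q.1).Monic := monic_prod_of_monic _ _ fun Q _ => Q.2.1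
    have hDe : Even (∏ Q ∈ JJ ∪ A, Q.1).natDegree := by
      rw [natDegree_prod_of_monic _ _ fun Q _ => Q.2.1, ← ZMod.natCast_eq_zero_iff_even]
      have h1 := congrFun hχU 0
      rw [Finset.sum_apply] at h1
      simp only [chi, Fin.cons_zero, Pi.zero_apply] at h1
      push_cast
      exact h1
    refine ⟨pr_sqf _, fun i => ?_⟩
    refine hgood i _ hDm (pr_sqf _) hDe ?_ ?_ ?_
    · intro Q hQm hQi hQd
      obtain ⟨Q', hQ', rfl⟩ := (pr_dvd hQm hQi).1 hQd
      rcases Finset.mem_union.1 hQ' with h1 | h1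
      · obtain ⟨j, hj⟩ := (hJJ Q').1 h1
        by_cases hij : j = i
        · subst hij
          exact Or.inl (hJS _ hj)
        · exact Or.inr ((hS j Q'.1 (hJS j hj)).2.2.2.2 i (Ne.symm hij))
      · exact Or.inr (hA Q' h1 i)
    · intro Q hQ
      have h1 := hS i Q hQ
      rw [pr_dvd h1.1 h1.2.1]
      constructor
      · rintro ⟨Q', hQ', rfl⟩
        obtain ⟨c, hc⟩ := h1.2.2.1
        rcases Finset.mem_union.1 hQ' with h3 | h3
        · obtain ⟨j, hj⟩ := (hJJ Q').1 h3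
          by_cases hij : j = i
          · subst hij
            exact hj
          · exact absurd hc ((hS j Q'.1 (hJS j hj)).2.2.2.2 i (Ne.symm hij) c)
        · exact absurd hc (hA Q' h3 i c)
      · intro h3
        exact ⟨⟨Q, h1.1, h1.2.1⟩, Finset.mem_union_left _ ((hJJ _).2 ⟨i, h3⟩), rfl⟩
    · intro Q hQm hQi hQd hQP
      have hQB : Q ∈ Bs := by
        rw [hBs]
        refine ⟨hQm, hQi, ⟨i, hQd⟩, fun j hj => ?_⟩
        by_cases hij : j = i
        · subst hij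
          exact hQP hj
        · rw [hj] at hQd
          exact hdat.oth j i hij hQd
      obtain ⟨j, hj⟩ := hBsur Q hQB
      have h1 := congrFun hχU j.succ
      rw [Finset.sum_apply] at h1
      simp only [chi, Fin.cons_succ, Pi.zero_apply, hj] at h1
      rw [chi_prod h2 hQi (JJ ∪ A) ?_] at h1
      · by_contra hcon
        rw [if_neg hcon] at h1
        exact one_ne_zero h1
      · intro Q' hQ' hd
        have he : Q = Q'.1 := eq_of_monic_of_associated hQm Q'.2.1 (hQi.associated_of_dvd Q'.2.2 hd)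
        obtain ⟨c, hc⟩ := root_of_dsc h6 hQi hQd
        rw [he] at hc hQd
        rcases Finset.mem_union.1 hQ' with h3 | h3
        · obtain ⟨j', hj'⟩ := (hJJ Q').1 h3
          by_cases hij : j' = i
          · subst hij
            exact (hS _ Q'.1 (hJS _ hj')).2.2.2.1 hQd
          · exact (hS j' Q'.1 (hJS j' hj')).2.2.2.2 i (Ne.symm hij) c hc
        · exact hA Q' h3 i c hc

end Pool.Agent.H467.UM
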