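import Pool.Agent.H467.MR.Gali

/-!
# Uniform vanishing over 2-extensions: statements of the parts

Project UM (helper467).
-/

set_option autoImplicit false
set_option linter.all false

open Polynomial IsDedekindDomain WeierstrassCurve WeierstrassCurve.Affine
open Pool.Agent.N874.PP Pool.Agent.TH115.GD Pool.Agent.H467.MR
open scoped Classical

namespace Pool.Agent.H467.UM

/-- From the explicit 2-Selmer group to the points and the Tate-Shafarevich group, over an arbitrary
field `M` and for an arbitrary class `Pl` of extension fields of `M` (the completions).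

Proof: this is the proof of `Pool.Agent.H467.MR.Gali.gali` (file `Pool/Agent/H467/MR/Gali.lean`), in
which the two conditions `∀ v, LocTriv W (Comp k[X] K v) ..` and `LocTriv W (CompInf k K) ..` are
replaced by `∀ E, Pl E → LocTriv W E (Sep E) f`. The parts used there (`hGB`, `hGN`, `hGT`, `glE`,
`half`, `cobLocE`, `fixed_point`, ...) are statements for arbitrary fields. The second conclusion
(no points of order two) follows from the irreducibility of the cubic polynomial. -/
def S_GALM : Prop := ∀ (M Ω : Type) [Field M] [Field Ω] [Algebra M Ω] (A B : M) (Θ : Ω)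
  (Pl : ∀ (E : Type) [Field E] [Algebra M E], Prop), (6 : M) ≠ 0 → 4 * A ^ 3 + 27 * B ^ 2 ≠ 0 →
  Irreducible (X ^ 3 + C A * X + C B : M[X]) → Rt A B Θ → Module.finrank M Ω = 3 →
  (∀ h : M[X], aeval Θ h ≠ 0 → IsSquare (Algebra.norm M (aeval Θ h)) →
    (∀ (E : Type) [Field E] [Algebra M E], Pl E → PolyLocE E A B h) → IsSquare (aeval Θ h)) →
  (∀ P : Pt (sW A B) M, ∃ Q : Pt (sW A B) M, P = (2 : ℕ) • Q) ∧
  (∀ P : Pt (sW A B) M, (2 : ℕ) • P = 0 → P = 0) ∧
  ∀ f : (Sep M ≃ₐ[M] Sep M) → Pt (sW A B) (Sep M), IsCoc (sW A B) f →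
    (∀ (E : Type) [Field E] [Algebra M E], Pl E → LocTriv (sW A B) E (Sep E) f) →
    (∃ (n : ℕ) (R : Pt (sW A B) (Sep M)), ∀ σ, 2 ^ n • f σ = act (sW A B) (rs M σ) R - R) →
    ∃ R : Pt (sW A B) (Sep M), ∀ σ, f σ = act (sW A B) (rs M σ) R - R

/-- An embedding `ι` of `M` in the completion `K_v` factors through the completion of `M` at some
prime `w` of the integral closure `R` of `k[X]`.

Proof: `w` is the ideal of the `r ∈ R` with `|ι(r)| < 1` (`|ι(r)| ≤ 1` for all `r ∈ R`, as `r` is
integral over `k[X]`; the ideal is not zero, as it contains the image of a generator of `v`). If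
`x ∈ M` has `w(x) ≤ exp(-n)` then `|ι(x)| ≤ exp(-n)`: for `x = r / s`, `r, s ∈ R`, `s ∉ w`, `r ∈ w ^ n`
this is clear (for `n ≥ 0`; one can also take an element `π ∈ R` with `w(π) = exp(-1)` and write
`x = π ^ n y` with `w(y) ≤ 1`, and `y = r / s` with `r, s ∈ R`, `s ∉ w`). So `ι` is uniformly
continuous for the `w`-adic topology of `M`, and it extends to the completion
(`UniformSpace.Completion.extensionHom` or similar, as in the proof of
`Pool.Agent.N874.JM.S_CPL` in the library). -/
def S_HOM : Prop := ∀ (k K M R : Type) [Field k] [Field K] [Algebra k[X] K] [IsFractionRing k[X] K]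
  [Field M] [Algebra K M] [Algebra k[X] M] [IsScalarTower k[X] K M] [CommRing R]
  [IsDedekindDomain R] [Algebra R M] [IsFractionRing R M] [Algebra k[X] R]
  [IsScalarTower k[X] R M] [IsIntegralClosure R k[X] M] (v : HeightOneSpectrum k[X])
  (ι : M →ₐ[K] v.adicCompletion K),
  ∃ (w : HeightOneSpectrum R) (φ : w.adicCompletion M →+* v.adicCompletion K),
    ∀ x : M, φ (algebraMap M (w.adicCompletion M) x) = ι x

end Pool.Agent.H467.UM
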