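import Pool.Agent.H467.UM.Pre
import Pool.Agent.H467.UM.Spec
import Pool.Agent.H467.MR.Core
import Pool.Graph.R_pool_sql_team_seeded_63374d34.N301.JM.TOW
import Pool.Graph.R_pool_sql_team_seeded_63374d34.N123.JM.Loc1
import Pool.Graph.R_pool_sql_team_seeded_63374d34.N55.PM.SigLie

/-!
# Descent along 2-extensions

Project UM (helper467).
-/

set_option autoImplicit false
set_option linter.all false

open Polynomial IsDedekindDomain
open Pool.Agent.N874.PP Pool.Agent.N765.PP Pool.Agent.H467.MR Pool.Agent.TH115.GD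
open Pool.Agent.N874.PM (ov_val val_le val_eq_of ov_down ev_down ev_sq ev_mul)
open scoped Classical IntermediateField

namespace Pool.Agent.H467.UM

open Pool.Agent.N141.PP (vP)

section cn

variable {k M Ω : Type} (K O' : Type) [Field k] [Field K] [Algebra k[X] K] [IsFractionRing k[X] K]
  [Field M] [Algebra K M] [Algebra k[X] M] [Field Ω] [Algebra M Ω] [Algebra k[X] Ω]
  [CommRing O'] [IsDedekindDomain O'] [Algebra O' Ω] [IsFractionRing O' Ω] [Algebra k[X] O']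

/-- The local conditions for an element of the cubic extension of `M`. -/
structure Cn (J : Finset k[X]) (a b D : k[X]) (Θ x : Ω) : Prop where
  inf : ∀ ι : M →ₐ[K] CompInf k K, CW (ι : M →+* CompInf k K) (a * D ^ 2) (b * D ^ 3) Θ x
  spl : ∀ P : k[X], P.Monic → ∀ hP : Irreducible P, (P ∣ dsc a b ∨ P ∈ J) →
    ∀ ι : M →ₐ[K] (vP P hP).adicCompletion K,
      CW (ι : M →+* (vP P hP).adicCompletion K) (a * D ^ 2) (b * D ^ 3) Θ x
  ev : ∀ P : k[X], P.Monic → Irreducible P → ¬ P ∣ dsc a b → ¬ P ∣ D →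
    (∃ c : k[X], P ∣ c ^ 3 + a * c + b) → ∀ 𝔓 : HeightOneSpectrum O', Ov P 𝔓 → Ev 𝔓 x

end cn

section up

variable {k K L M Ω : Type} (O O' R : Type) [Field k] [Finite k] [Field K] [Field L] [Field M]
  [Field Ω]
  [Algebra k[X] K] [IsFractionRing k[X] K]
  [Algebra K L] [Algebra k[X] L] [IsScalarTower k[X] K L]
  [Algebra K M] [Algebra k[X] M] [IsScalarTower k[X] K M]
  [Algebra L Ω] [Algebra M Ω] [Algebra K Ω] [IsScalarTower K L Ω] [IsScalarTower K M Ω]
  [Algebra k[X] Ω] [IsScalarTower k[X] L Ω] [IsScalarTower k[X] M Ω]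
  [CommRing O] [IsDedekindDomain O] [Algebra O L] [IsFractionRing O L] [Algebra k[X] O]
  [IsScalarTower k[X] O L] [IsIntegralClosure O k[X] L]
  [CommRing O'] [IsDedekindDomain O'] [Algebra O' Ω] [IsFractionRing O' Ω] [Algebra k[X] O']
  [IsScalarTower k[X] O' Ω] [IsIntegralClosure O' k[X] Ω]
  [CommRing R] [IsDedekindDomain R] [Algebra R M] [IsFractionRing R M] [Algebra k[X] R]
  [IsScalarTower k[X] R M] [IsIntegralClosure R k[X] M] [IsGalois K M]
  [FiniteDimensional M Ω] [Algebra.IsSeparable M Ω] [FiniteDimensional L Ω]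
  [Algebra.IsSeparable L Ω]

theorem inj_of_tower {k K M : Type} [Field k] [Field K] [Field M] [Algebra k[X] K]
    [IsFractionRing k[X] K] [Algebra K M] [Algebra k[X] M] [IsScalarTower k[X] K M] :
    Function.Injective (algebraMap k[X] M) := by
  rw [IsScalarTower.algebraMap_eq k[X] K M]
  exact (algebraMap K M).injective.comp (IsFractionRing.injective k[X] K)

/-- The conditions hold for squares. -/
theorem cn_sq {J : Finset k[X]} {a b D : k[X]} {Θ : Ω} (hC : IsCub M (a * D ^ 2) (b * D ^ 3) Θ)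
    (hgen : ∀ x : Ω, ∃ p : M[X], aeval Θ p = x) (x : Ω) :
    Cn (M := M) K O' J a b D Θ (x ^ 2) := by
  obtain ⟨p, rfl⟩ := hgen x
  exact ⟨fun ι => cw_sq _ p, fun P _ _ _ ι => cw_sq _ p, fun P _ _ _ _ _ 𝔓 _ => ev_sq 𝔓 _⟩

/-- The conditions hold for products. -/
theorem cn_mul (hCLO : S_CLO) (h6 : (6 : k) ≠ 0) {J : Finset k[X]} {a b D : k[X]} {Θ : Ω}
    (hΔ : 4 * (a * D ^ 2) ^ 3 + 27 * (b * D ^ 3) ^ 2 ≠ 0) {x y : Ω}
    (hx : Cn (M := M) K O' J a b D Θ x) (hy : Cn (M := M) K O' J a b D Θ y) :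
    Cn (M := M) K O' J a b D Θ (x * y) := by
  have hinj : Function.Injective (algebraMap k[X] M) := inj_of_tower (K := K)
  exact ⟨fun ι => cw_mul _ hCLO h6 hinj hΔ (hx.inf ι) (hy.inf ι),
    fun P h1 h2 h3 ι => cw_mul _ hCLO h6 hinj hΔ (hx.spl P h1 h2 h3 ι) (hy.spl P h1 h2 h3 ι),
    fun P h1 h2 h3 h4 h5 𝔓 h7 => ev_mul (hx.ev P h1 h2 h3 h4 h5 𝔓 h7) (hy.ev P h1 h2 h3 h4 h5 𝔓 h7)⟩

/-- The conditions are stable under Galois automorphisms. -/
theorem cn_sig {J : Finset k[X]} {a b D : k[X]} {θ : L} (σ : Ω ≃ₐ[L] Ω) {x : Ω}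
    (h : Cn (M := M) K O' J a b D (algebraMap k[X] Ω D * algebraMap L Ω θ) x) :
    Cn (M := M) K O' J a b D (algebraMap k[X] Ω D * algebraMap L Ω θ) (σ x) := by
  -- the restriction to `M`
  let σK : Ω ≃ₐ[K] Ω := σ.restrictScalars K
  let τ : M ≃ₐ[K] M := σK.restrictNormal M
  have hτ : ∀ y : M, algebraMap M Ω (τ y) = σ (algebraMap M Ω y) := fun y =>
    AlgEquiv.restrictNormal_commutes σK M y
  have hτk : ∀ c : k[X], τ.toRingEquiv (algebraMap k[X] M c) = algebraMap k[X] M c := by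
    intro c
    rw [IsScalarTower.algebraMap_apply k[X] K M]
    exact τ.commutes _
  have hΘ : σ.toRingEquiv (algebraMap k[X] Ω D * algebraMap L Ω θ) =
      algebraMap k[X] Ω D * algebraMap L Ω θ := by
    show σ (algebraMap k[X] Ω D * algebraMap L Ω θ) = _
    rw [map_mul, IsScalarTower.algebraMap_apply k[X] L Ω, σ.commutes, σ.commutes]
  refine ⟨fun ι => ?_, fun P h1 h2 h3 ι => ?_, fun P h1 h2 h3 h4 h5 𝔓 h7 => ?_⟩
  · have h8 := h.inf (ι.comp (τ : M →ₐ[K] M))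
    exact cw_sig (ψ := (ι : M →+* CompInf k K)) (τ := τ.toRingEquiv) (σ := σ.toRingEquiv)
      hτk (fun y => (hτ y).symm) hΘ h8
  · have h8 := h.spl P h1 h2 h3 (ι.comp (τ : M →ₐ[K] M))
    exact cw_sig (ψ := (ι : M →+* (vP P h2).adicCompletion K)) (τ := τ.toRingEquiv)
      (σ := σ.toRingEquiv) hτk (fun y => (hτ y).symm) hΘ h8
  · obtain ⟨𝔓', hv, hO⟩ := Pool.Agent.N55.PM.sig k Ω O' (σ.restrictScalars k[X]) 𝔓
    have hv' : ∀ y : Ω, 𝔓'.valuation Ω y = 𝔓.valuation Ω (σ y) := hv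
    obtain ⟨z, hz⟩ := h.ev P h1 h2 h3 h4 h5 𝔓' ((hO P).2 h7)
    exact ⟨σ z, by rw [← hv', ← hv', hz]⟩

end up

end Pool.Agent.H467.UM
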