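import Pool.Agent.H467.UM.Up
import Pool.Graph.R_pool_sql_team_seeded_63374d34.N427.PJ.E1
import Pool.Graph.R_pool_sql_team_seeded_63374d34.N787.PJ.Ext
import Pool.Graph.R_pool_sql_team_seeded_63374d34.N814.JM.Cpl

/-!
# Descent along 2-extensions: the theorem

Project UM (helper467).
-/

set_option autoImplicit false
set_option linter.all false

open Polynomial IsDedekindDomain
open Pool.Agent.N874.PP Pool.Agent.N765.PP Pool.Agent.H467.MR Pool.Agent.TH115.GD
open Pool.Agent.N874.PM (ov_val val_le val_eq_of ov_down ev_down ev_sq ev_mul)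
open scoped Classical IntermediateField

namespace Pool.Agent.H467.UM

open Pool.Agent.N141.PP (vP)

theorem loc1T : Pool.Agent.N874.JM.S_LOC1 :=
  Pool.Agent.N123.JM.loc1 Pool.Agent.N427.PJ.e1 Pool.Agent.N787.PJ.ext Pool.Agent.N814.JM.cpl

section up

variable {k K L M Ω : Type} (O O' R : Type) [Field k] [Finite k] [Field K] [Field L] [Field M]
  [Field Ω]
  [Algebra k[X] K] [IsFractionRing k[X] K]
  [Algebra K L] [Algebra k[X] L] [IsScalarTower k[X] K L]
  [Algebra K M] [Algebra k[X] M] [IsScalarTower k[X] K M]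
  [Algebra L Ω] [Algebra M Ω] [Algebra K Ω] [IsScalarTower K L Ω] [IsScalarTower K M Ω]
  [Algebra k[X] Ω] [IsScalarTower k[X] L Ω] [IsScalarTower k[X] M Ω]
  [CommRing O] [IsDedekindDomain O] [Algebra O L] [IsFractionRing O L] [Algebra k[X] O]
  [IsScalarTower k[X] O L] [IsIntegralClosure O k[X] L]
  [CommRing O'] [IsDedekindDomain O'] [Algebra O' Ω] [IsFractionRing O' Ω] [Algebra k[X] O']
  [IsScalarTower k[X] O' Ω] [IsIntegralClosure O' k[X] Ω]
  [CommRing R] [IsDedekindDomain R] [Algebra R M] [IsFractionRing R M] [Algebra k[X] R]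
  [IsScalarTower k[X] R M] [IsIntegralClosure R k[X] M] [IsGalois K M]
  [FiniteDimensional M Ω] [Algebra.IsSeparable M Ω] [FiniteDimensional L Ω]
  [Algebra.IsSeparable L Ω]

/-- The elements which come from `h` satisfy the conditions. -/
theorem cn_init (hHOM : S_HOM) (h6 : (6 : k) ≠ 0) {J : Finset k[X]} {a b D : k[X]} {θ : L}
    (hθr : θ ^ 3 + algebraMap k[X] L a * θ + algebraMap k[X] L b = 0)
    (hC : IsCub M (a * D ^ 2) (b * D ^ 3) (algebraMap k[X] Ω D * algebraMap L Ω θ))
    (hΔ : 4 * (a * D ^ 2) ^ 3 + 27 * (b * D ^ 3) ^ 2 ≠ 0) {h : M[X]}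
    (hne : aeval (algebraMap k[X] Ω D * algebraMap L Ω θ) h ≠ 0)
    (hN : IsSquare (Algebra.norm M (aeval (algebraMap k[X] Ω D * algebraMap L Ω θ) h)))
    (hfin : ∀ w : HeightOneSpectrum R, PLh (algebraMap M (w.adicCompletion M))
      (algebraMap k[X] M (a * D ^ 2)) (algebraMap k[X] M (b * D ^ 3)) h)
    (hinf : ∀ ι : M →ₐ[K] CompInf k K, PLh (ι : M →+* CompInf k K)
      (algebraMap k[X] M (a * D ^ 2)) (algebraMap k[X] M (b * D ^ 3)) h) :
    Cn (M := M) K O' J a b D (algebraMap k[X] Ω D * algebraMap L Ω θ)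
      (aeval (algebraMap k[X] Ω D * algebraMap L Ω θ) h) := by
  have hinj : Function.Injective (algebraMap k[X] M) := inj_of_tower (K := K)
  have hinjK : Function.Injective (algebraMap k[X] K) := IsFractionRing.injective k[X] K
  refine ⟨fun ι => cw_of_loc _ h6 hinj hΔ hC hne hN (hinf ι), fun P h1 h2 h3 ι => ?_,
    fun P h1 h2 h3 h4 h5 𝔓 h7 => ?_⟩
  · obtain ⟨w, φ, hφ⟩ := hHOM k K M R (vP P h2) ι
    have h8 := plh_comp φ (hfin w)
    have e : φ.comp (algebraMap M (w.adicCompletion M)) =
        (ι : M →+* (vP P h2).adicCompletion K) := RingHom.ext hφ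
    rw [e] at h8
    exact cw_of_loc _ h6 hinj hΔ hC hne hN h8
  · obtain ⟨w, hw, hO⟩ := Pool.Agent.N55.PM.lie k M Ω R O' 𝔓
    have hPw : Ov P w := (hO P).2 h7
    -- the local condition in the form of the library
    have hwc : Wc (algebraMap M (w.adicCompletion M) (algebraMap k[X] M (a * D ^ 2)))
        (algebraMap M (w.adicCompletion M) (algebraMap k[X] M (b * D ^ 3)))
        (h.map (algebraMap M (w.adicCompletion M))) :=
      wc_of_cw _ hC (cw_of_loc _ h6 hinj hΔ hC hne hN (hfin w))
    obtain ⟨l, s, hl1, hl2⟩ := list_of_wc (discE _ hinj hΔ) hwc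
    set fM : M[X] := X ^ 3 + C (algebraMap k[X] M a) * X + C (algebraMap k[X] M b) with hfM
    have hsc : (fM.scaleRoots (algebraMap k[X] M D)).map (algebraMap M (w.adicCompletion M)) =
        cub (algebraMap M (w.adicCompletion M) (algebraMap k[X] M (a * D ^ 2)))
          (algebraMap M (w.adicCompletion M) (algebraMap k[X] M (b * D ^ 3))) := by
      rw [hfM, fpol_scale]
      unfold cub
      simp
    have hl : Pool.Agent.N874.JM.LocF (w.adicCompletion M)
        (fM.scaleRoots (algebraMap k[X] M D)) h := by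
      refine ⟨l, s, ?_, ?_⟩
      · rw [hsc]
        exact hl1
      · rw [hsc]
        exact hl2
    have hrΩ : (algebraMap L Ω θ) ^ 3 + algebraMap k[X] Ω a * (algebraMap L Ω θ) +
        algebraMap k[X] Ω b = 0 := by
      have := congrArg (algebraMap L Ω) hθr
      rw [map_add, map_add, map_mul, map_pow, map_zero, ← IsScalarTower.algebraMap_apply k[X] L Ω,
        ← IsScalarTower.algebraMap_apply k[X] L Ω] at this
      exact this
    have e3 : algebraMap M Ω (algebraMap k[X] M D) = algebraMap k[X] Ω D :=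
      (IsScalarTower.algebraMap_apply k[X] M Ω _).symm
    have v2 : w.valuation M 2 = 1 := by
      have e : (2 : M) = algebraMap k[X] M (C 2) := by
        rw [show (C (2 : k) : k[X]) = 2 from rfl, map_ofNat]
      rw [e]
      refine val_eq_of _ w (Pool.Agent.N874.PM.not_ov_unit ?_ w)
      rw [isUnit_C]
      refine IsUnit.mk0 _ fun h0 => h6 ?_
      have : (6 : k) = 2 * 3 := by norm_num
      rw [this, h0, zero_mul]
    have h8 := loc1T M Ω R O' w 𝔓 hw v2 fM h (algebraMap k[X] M D) (algebraMap L Ω θ)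
      (by rw [hfM]; monicity!) (by rw [hfM, fpol_deg]; decide)
      (fun i => ?_) (by
        rw [hfM]
        simp only [map_add, map_mul, map_pow, aeval_X, aeval_C]
        rw [← IsScalarTower.algebraMap_apply k[X] M Ω, ← IsScalarTower.algebraMap_apply k[X] M Ω]
        exact hrΩ)
      (by
        rw [hfM, fpol_der]
        simp only [map_add, map_mul, map_pow, aeval_X, aeval_C, map_ofNat]
        rw [← IsScalarTower.algebraMap_apply k[X] M Ω]
        exact der_unit hrΩ h2 h3 h7)
      (val_eq_of _ w (not_ov h2 hPw h4)) hl (by rw [e3]; exact hne)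
    · rw [e3] at h8
      exact h8
    · rw [hfM]
      have e : (X ^ 3 + C (algebraMap k[X] M a) * X + C (algebraMap k[X] M b) : M[X]) =
          (X ^ 3 + C a * X + C b : k[X][X]).map (algebraMap k[X] M) := by simp
      rw [e, coeff_map]
      exact val_le _ w

end up

end Pool.Agent.H467.UM
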