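import Pool.Agent.H467.UM.Up2

/-!
# Descent along 2-extensions: the theorem

Project UM (helper467).
-/

set_option autoImplicit false
set_option linter.all false

open Polynomial IsDedekindDomain
open Pool.Agent.N874.PP Pool.Agent.N765.PP Pool.Agent.H467.MR Pool.Agent.TH115.GD
open Pool.Agent.N874.PM (ov_val val_le val_eq_of ov_down ev_down ev_sq ev_mul)
open scoped Classical IntermediateField

namespace Pool.Agent.H467.UM

open Pool.Agent.N141.PP (vP)

/-- The 2-Selmer group of the twist by `D`, without conditions at the primes modulo which the cubic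
polynomial has no root, is zero. -/
def SelD {k K L : Type} [Field k] [Field K] [Algebra k[X] K] [IsFractionRing k[X] K] [Field L]
    [Algebra K L] [Algebra k[X] L] (O : Type) [CommRing O] [IsDedekindDomain O] [Algebra O L]
    [IsFractionRing O L] [Algebra k[X] O] (J : Finset k[X]) (a b D : k[X]) (θ : L) : Prop :=
  ∀ p : K[X], NS K (aeval (algebraMap k[X] L D * θ) p) →
    (∀ P : k[X], P.Monic → ∀ hP : Irreducible P, (P ∣ dsc a b ∨ P ∈ J) →
      PolyLoc (vP P hP) (a * D ^ 2) (b * D ^ 3) p) →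
    (∀ P : k[X], P.Monic → Irreducible P → ¬ P ∣ dsc a b → ¬ P ∣ D →
      (∃ c : k[X], P ∣ c ^ 3 + a * c + b) → ∀ 𝔓 : HeightOneSpectrum O, Ov P 𝔓 →
      Ev 𝔓 (aeval (algebraMap k[X] L D * θ) p)) →
    PolyLocE (CompInf k K) (algebraMap k[X] K (a * D ^ 2)) (algebraMap k[X] K (b * D ^ 3)) p →
    IsSquare (aeval (algebraMap k[X] L D * θ) p)

/-- The conditions on the extension `M`. -/
structure Ext (k K M R : Type) [Field k] [Field K] [Algebra k[X] K] [IsFractionRing k[X] K]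
    [Field M] [Algebra K M] [Algebra k[X] M] [CommRing R] [IsDedekindDomain R] [Algebra R M]
    [IsFractionRing R M] [Algebra k[X] R] (J : Finset k[X]) (a b D : k[X]) : Prop where
  inf : Nonempty (M →ₐ[K] CompInf k K)
  spl : ∀ P : k[X], P.Monic → ∀ hP : Irreducible P, (P ∣ dsc a b ∨ P ∈ J) →
    Nonempty (M →ₐ[K] (vP P hP).adicCompletion K)
  unr : ∀ P : k[X], P.Monic → Irreducible P → ¬ P ∣ dsc a b → ¬ P ∣ D →
    (∃ c : k[X], P ∣ c ^ 3 + a * c + b) → ∀ w : HeightOneSpectrum R, Ov P w →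
      w.valuation M (algebraMap k[X] M P) = WithZero.exp (-1 : ℤ)

section up

variable {k K L M Ω : Type} (O O' R : Type) [Field k] [Finite k] [Field K] [Field L] [Field M]
  [Field Ω]
  [Algebra k[X] K] [IsFractionRing k[X] K]
  [Algebra K L] [Algebra k[X] L] [IsScalarTower k[X] K L]
  [Algebra K M] [Algebra k[X] M] [IsScalarTower k[X] K M]
  [Algebra L Ω] [Algebra M Ω] [Algebra K Ω] [IsScalarTower K L Ω] [IsScalarTower K M Ω]
  [Algebra k[X] Ω] [IsScalarTower k[X] L Ω] [IsScalarTower k[X] M Ω]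
  [CommRing O] [IsDedekindDomain O] [Algebra O L] [IsFractionRing O L] [Algebra k[X] O]
  [IsScalarTower k[X] O L] [IsIntegralClosure O k[X] L]
  [CommRing O'] [IsDedekindDomain O'] [Algebra O' Ω] [IsFractionRing O' Ω] [Algebra k[X] O']
  [IsScalarTower k[X] O' Ω] [IsIntegralClosure O' k[X] Ω]
  [CommRing R] [IsDedekindDomain R] [Algebra R M] [IsFractionRing R M] [Algebra k[X] R]
  [IsScalarTower k[X] R M] [IsIntegralClosure R k[X] M] [IsGalois K M]
  [FiniteDimensional M Ω] [Algebra.IsSeparable M Ω] [FiniteDimensional L Ω]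
  [Algebra.IsSeparable L Ω]

/-- From the condition over `M` to the local condition over `K`. -/
theorem loc_down {E : Type} [Field E] [Algebra K E] {a b D : k[X]} {θ : L}
    (hC : IsCub M (a * D ^ 2) (b * D ^ 3) (algebraMap k[X] Ω D * algebraMap L Ω θ))
    (hΔ : 4 * (a * D ^ 2) ^ 3 + 27 * (b * D ^ 3) ^ 2 ≠ 0) (ι : M →ₐ[K] E) {p : K[X]}
    (h : CW (ι : M →+* E) (a * D ^ 2) (b * D ^ 3) (algebraMap k[X] Ω D * algebraMap L Ω θ)
      (algebraMap L Ω (aeval (algebraMap k[X] L D * θ) p))) :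
    PolyLocE E (algebraMap k[X] K (a * D ^ 2)) (algebraMap k[X] K (b * D ^ 3)) p := by
  have hinjK : Function.Injective (algebraMap k[X] K) := IsFractionRing.injective k[X] K
  have e1 : algebraMap L Ω (aeval (algebraMap k[X] L D * θ) p) =
      aeval (algebraMap k[X] Ω D * algebraMap L Ω θ) (p.map (algebraMap K M)) := by
    rw [aeval_map_algebraMap, ← aeval_algebraMap_apply, map_mul,
      ← IsScalarTower.algebraMap_apply k[X] L Ω]
  rw [e1] at h
  have h1 := wc_of_cw _ hC h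
  have e2 : ∀ c : k[X], (ι : M →+* E) (algebraMap k[X] M c) =
      algebraMap K E (algebraMap k[X] K c) := by
    intro c
    rw [IsScalarTower.algebraMap_apply k[X] K M]
    exact ι.commutes _
  have e3 : (p.map (algebraMap K M)).map (ι : M →+* E) = p.map (algebraMap K E) := by
    rw [Polynomial.map_map]
    congr 1
    exact RingHom.ext fun x => ι.commutes x
  rw [e2, e2, e3] at h1
  exact loc_of_wc (discE (algebraMap K E) hinjK hΔ) h1

include O' R in
/-- The elements of the cubic extension of `K`. -/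
theorem cn_base (h6 : (6 : k) ≠ 0) {J : Finset k[X]} {a b D : k[X]} {θ : L} (hD : D ≠ 0)
    (hc : IsCub K a b θ)
    (hC : IsCub M (a * D ^ 2) (b * D ^ 3) (algebraMap k[X] Ω D * algebraMap L Ω θ))
    (hΔ : 4 * (a * D ^ 2) ^ 3 + 27 * (b * D ^ 3) ^ 2 ≠ 0)
    (hθ : M⟮algebraMap L Ω θ⟯ = ⊤) (hsel : SelD (K := K) O J a b D θ)
    (hM : Ext k K M R J a b D) {x : L} (hx : x ≠ 0)
    (hCn : Cn (M := M) K O' J a b D (algebraMap k[X] Ω D * algebraMap L Ω θ) (algebraMap L Ω x))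
    (hN : IsSquare (Algebra.norm K x)) : IsSquare x := by
  have hDL : algebraMap k[X] L D ≠ 0 := by
    have hinj : Function.Injective (algebraMap k[X] L) := inj_of_tower (K := K)
    rwa [Ne, map_eq_zero_iff _ hinj]
  obtain ⟨p, rfl⟩ : ∃ p : K[X], aeval (algebraMap k[X] L D * θ) p = x := by
    obtain ⟨r, s, t, hx'⟩ := hc.gen x
    refine ⟨C r + C (s / algebraMap k[X] K D) * X + C (t / (algebraMap k[X] K D) ^ 2) * X ^ 2, ?_⟩
    rw [hx']
    simp only [map_add, map_mul, map_pow, aeval_X, aeval_C, map_div₀,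
      ← IsScalarTower.algebraMap_apply k[X] K L]
    field_simp
  refine hsel p ⟨hx, hN⟩ ?_ ?_ ?_
  · intro P h1 h2 h3
    obtain ⟨ι⟩ := hM.spl P h1 h2 h3
    exact loc_down hC hΔ ι (hCn.spl P h1 h2 h3 ι)
  · intro P h1 h2 h3 h4 h5 𝔓 h7
    obtain ⟨𝔓', hv, -⟩ := Pool.Agent.N874.TW.up_prime (K := K) (M := M) (Ω := Ω) O O' R
      (isGen_of hc) hθ h1 h2 (hM.unr P h1 h2 h3 h4 h5) 𝔓 h7 (by
        rw [fpol_der, eval₂_add, eval₂_mul, eval₂_X_pow, eval₂_C, eval₂_C, map_ofNat]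
        exact der_unit hc.root h2 h3 h7)
    rw [← ev_down hv]
    exact hCn.ev P h1 h2 h3 h4 h5 𝔓' ((ov_down hv P).2 h7)
  · obtain ⟨ι⟩ := hM.inf
    exact loc_down hC hΔ ι (hCn.inf ι)

include O O' R in
/-- The Selmer group over `M` is zero. -/
theorem up (hHOM : S_HOM) (hCLO : S_CLO) (h6 : (6 : k) ≠ 0) {J : Finset k[X]} {a b D : k[X]}
    {θ : L} (hD : D ≠ 0) (hc : IsCub K a b θ)
    (hC : IsCub M (a * D ^ 2) (b * D ^ 3) (algebraMap k[X] Ω D * algebraMap L Ω θ))
    (hΔ : 4 * (a * D ^ 2) ^ 3 + 27 * (b * D ^ 3) ^ 2 ≠ 0)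
    (hθ : M⟮algebraMap L Ω θ⟯ = ⊤) (hsel : SelD (K := K) O J a b D θ)
    (hM : Ext k K M R J a b D) {n : ℕ} (hn : Module.finrank K M = 2 ^ n) {h : M[X]}
    (hne : aeval (algebraMap k[X] Ω D * algebraMap L Ω θ) h ≠ 0)
    (hN : IsSquare (Algebra.norm M (aeval (algebraMap k[X] Ω D * algebraMap L Ω θ) h)))
    (hfin : ∀ w : HeightOneSpectrum R, PLh (algebraMap M (w.adicCompletion M))
      (algebraMap k[X] M (a * D ^ 2)) (algebraMap k[X] M (b * D ^ 3)) h)
    (hinf : ∀ ι : M →ₐ[K] CompInf k K, PLh (ι : M →+* CompInf k K)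
      (algebraMap k[X] M (a * D ^ 2)) (algebraMap k[X] M (b * D ^ 3)) h) :
    IsSquare (aeval (algebraMap k[X] Ω D * algebraMap L Ω θ) h) := by
  have h2K : (2 : K) ≠ 0 := twoE (algebraMap K K) h6
  have hgen : ∀ x : Ω, ∃ p : M[X], aeval (algebraMap k[X] Ω D * algebraMap L Ω θ) p = x := by
    intro x
    obtain ⟨r, s, t, hx'⟩ := hC.gen x
    refine ⟨C r + C s * X + C t * X ^ 2, ?_⟩
    rw [hx']
    simp only [map_add, map_mul, map_pow, aeval_X, aeval_C]
  refine Pool.Agent.N301.JM.tow' n K L M Ω h2K hn (by rw [hc.rank]; decide)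
    (by rw [hC.rank, hc.rank])
    (fun x => Cn (M := M) K O' J a b D (algebraMap k[X] Ω D * algebraMap L Ω θ) x)
    (fun x hx => cn_sq O' hC hgen x) (fun x y _ _ hx hy => cn_mul O' hCLO h6 hΔ hx hy)
    (fun σ x hx => cn_sig O' σ hx)
    (fun x hx hCn hN => cn_base O O' R h6 hD hc hC hΔ hθ hsel hM hx hCn hN) _ hne ?_ hN
  exact cn_init O' R hHOM h6 hc.root hC hΔ hne hN hfin hinf

end up

end Pool.Agent.H467.UM
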