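import Pool.Agent.H467.UM.Crd
import Pool.Graph.R_pool_sql_team_seeded_63374d34.N874.JM.Stm

/-!
# Local conditions: conversions

Project UM (helper467).
-/

set_option autoImplicit false
set_option linter.all false

open Polynomial IsDedekindDomain
open Pool.Agent.N874.PP Pool.Agent.N765.PP Pool.Agent.H467.MR
open scoped Classical

namespace Pool.Agent.H467.UM

section conv

variable {E : Type} [Field E] {A B : E}

/-- The class of a point comes from a point, in the second form. -/
theorem loc_of_wc (hΔ : 4 * A ^ 3 + 27 * B ^ 2 ≠ 0) {h : E[X]} (hw : Wc A B h) :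
    (∃ g : E[X], cub A B ∣ h - g ^ 2) ∨ ∃ x y : E, y ^ 2 = x ^ 3 + A * x + B ∧
      ∃ g : E[X], cub A B ∣ (C x - X) * h - g ^ 2 := by
  obtain ⟨μ, g, hμ, hd⟩ := hw
  cases hμ with
  | one => exact Or.inl ⟨g, by rwa [one_mul] at hd⟩
  | pt x y hy hxy => exact Or.inr ⟨x, y, hxy, g, hd⟩
  | tor e he =>
    right
    refine ⟨e, 0, by rw [he]; ring, ?_⟩
    set G := (X ^ 2 + C e * X + C (e ^ 2 + A) : E[X]) with hG
    have hF := fe_ne hΔ he
    have hGe : G.eval e = 3 * e ^ 2 + A := by
      rw [hG]; simp; ring
    have hfac := cub_fac he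
    rw [← hG] at hfac
    obtain ⟨q, hq⟩ := hd
    have hev := congrArg (eval e) hq
    rw [hfac] at hev
    simp only [eval_sub, eval_mul, eval_add, eval_C, eval_X, sub_self, zero_mul, zero_add,
      eval_pow, hGe] at hev
    set κ := g.eval e / (3 * e ^ 2 + A) with hκ
    have hκ1 : κ * (3 * e ^ 2 + A) = g.eval e := by rw [hκ]; field_simp
    have hh : h.eval e = κ ^ 2 * (3 * e ^ 2 + A) := by
      have h1 : (3 * e ^ 2 + A) * h.eval e = (κ * (3 * e ^ 2 + A)) ^ 2 := by
        rw [hκ1]; linear_combination hev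
      have h2 : (3 * e ^ 2 + A) * (h.eval e - κ ^ 2 * (3 * e ^ 2 + A)) = 0 := by
        linear_combination h1
      rcases mul_eq_zero.1 h2 with h3 | h3
      · exact absurd h3 hF
      · linear_combination h3
    refine ⟨g - C κ * G, ?_⟩
    have hroot : X - C e ∣ h - C (2 * κ) * g + C (κ ^ 2) * G := by
      rw [dvd_iff_isRoot, IsRoot.def]
      simp only [eval_sub, eval_add, eval_mul, eval_C, hGe, ← hκ1, hh]
      ring
    obtain ⟨r, hr⟩ := hroot
    refine ⟨q - r, ?_⟩
    have e2 : (C e - X) * h - (g - C κ * G) ^ 2 =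
        ((C e - X + G) * h - g ^ 2) - G * (h - C (2 * κ) * g + C (κ ^ 2) * G) := by
      simp only [C_mul, C_pow, C_ofNat]
      ring
    rw [e2, hq, hr, hfac]
    ring

/-- The class of a point in the form of a list of polynomials. -/
theorem list_of_wc (hΔ : 4 * A ^ 3 + 27 * B ^ 2 ≠ 0) {h : E[X]} (hw : Wc A B h) :
    ∃ (l : List (E[X] × E[X])) (s : E[X]),
      (∀ p ∈ l, p.1.Monic ∧ IsCoprime p.1 (cub A B) ∧ p.1 ∣ p.2 ^ 2 - cub A B) ∧
      cub A B ∣ h * (l.map fun p => (-1) ^ p.1.natDegree * p.1).prod - s ^ 2 := by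
  obtain ⟨μ, g, hμ, hd⟩ := hw
  cases hμ with
  | one =>
    refine ⟨[], g, by simp, ?_⟩
    simp only [List.map_nil, List.prod_nil, mul_one]
    rwa [one_mul] at hd
  | pt x y hy hxy =>
    refine ⟨[(X - C x, C y)], g, ?_, ?_⟩
    · intro p hp
      rw [List.mem_singleton] at hp
      subst hp
      refine ⟨monic_X_sub_C x, ?_, ?_⟩
      · rw [(irreducible_X_sub_C x).coprime_iff_not_dvd, dvd_iff_isRoot, IsRoot.def]
        intro h0
        apply pow_ne_zero 2 hy
        rw [hxy, ← h0]
        unfold cub
        simp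
      · show X - C x ∣ C y ^ 2 - cub A B
        rw [dvd_iff_isRoot, IsRoot.def]
        unfold cub
        simp
        linear_combination hxy
    · simp only [List.map_cons, List.map_nil, List.prod_cons, List.prod_nil, mul_one,
        natDegree_X_sub_C, pow_one]
      have e : h * (-1 * (X - C x)) - g ^ 2 = (C x - X) * h - g ^ 2 := by ring
      rw [e]
      exact hd
  | tor e he =>
    set G := (X ^ 2 + C e * X + C (e ^ 2 + A) : E[X]) with hG
    have hF := fe_ne hΔ he
    have hGe : G.eval e = 3 * e ^ 2 + A := by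
      rw [hG]; simp; ring
    have hfac := cub_fac he
    rw [← hG] at hfac
    have hdeg : (C e - X + G : E[X]).natDegree = 2 := by
      rw [hG]
      compute_degree!
    have hmon : (C e - X + G : E[X]).Monic := by
      have e1 : (C e - X + G : E[X]) = X ^ 2 + (C (e - 1) * X + C (e ^ 2 + A + e)) := by
        rw [hG]
        simp only [C_add, C_sub, C_1]
        ring
      rw [e1]
      monicity!
    refine ⟨[(C e - X + G, X - C e)], g, ?_, ?_⟩
    · intro p hp
      rw [List.mem_singleton] at hp
      subst hp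
      refine ⟨hmon, ?_, ?_⟩
      · show IsCoprime (C e - X + G) (cub A B)
        rw [hfac]
        have c1 : IsCoprime (X - C e) G := by
          rw [(irreducible_X_sub_C e).coprime_iff_not_dvd, dvd_iff_isRoot, IsRoot.def, hGe]
          exact hF
        refine IsCoprime.mul_right ?_ ?_
        · obtain ⟨u, w, huw⟩ := c1
          exact ⟨w, u + w, by linear_combination huw⟩
        · obtain ⟨u, w, huw⟩ := c1
          exact ⟨-u, u + w, by linear_combination huw⟩
      · show C e - X + G ∣ (X - C e) ^ 2 - cub A B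
        rw [hfac]
        exact ⟨-(X - C e), by ring⟩
    · simp only [List.map_cons, List.map_nil, List.prod_cons, List.prod_nil, mul_one, hdeg]
      have e' : h * ((-1) ^ 2 * (C e - X + G)) - g ^ 2 = (C e - X + G) * h - g ^ 2 := by ring
      rw [e']
      exact hd

end conv

section fun_

/-- The local condition over a larger field. -/
theorem polyLocE_map {K E E' : Type} [Field K] [Field E] [Field E'] [Algebra K E] [Algebra K E']
    (φ : E →+* E') (hφ : ∀ x : K, φ (algebraMap K E x) = algebraMap K E' x) {A B : K} {h : K[X]}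
    (hl : PolyLocE E A B h) : PolyLocE E' A B h := by
  have hc : φ.comp (algebraMap K E) = algebraMap K E' := RingHom.ext hφ
  have hcub : (cub (algebraMap K E A) (algebraMap K E B)).map φ =
      cub (algebraMap K E' A) (algebraMap K E' B) := by
    unfold cub
    simp [hφ]
  have hh : (h.map (algebraMap K E)).map φ = h.map (algebraMap K E') := by
    rw [Polynomial.map_map, hc]
  rcases hl with ⟨g, hg⟩ | ⟨x, y, hxy, g, hg⟩
  · left
    refine ⟨g.map φ, ?_⟩
    have := Polynomial.map_dvd φ hg
    rwa [hcub, Polynomial.map_sub, hh, Polynomial.map_pow] at this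
  · right
    refine ⟨φ x, φ y, ?_, g.map φ, ?_⟩
    · rw [← map_pow, hxy]
      simp [hφ]
    · have := Polynomial.map_dvd φ hg
      rwa [hcub, Polynomial.map_sub, Polynomial.map_mul, hh, Polynomial.map_pow,
        Polynomial.map_sub, map_X, map_C] at this

end fun_

end Pool.Agent.H467.UM
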